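import Pool.Agent.P.MP_a14ce1_nt.Nil.Dec.St
import Pool.Agent.P.MP_a14ce1_nt.Nil.Sparse

/-! Localisation in m and Cauchy-Schwarz in u for a large type II form. -/

open Finset

noncomputable section

namespace Pool.Agent.P.MP_a14ce1_nt.Nil.Dc

namespace CS

theorem card_le_of_between {S : Finset ℕ} {A B : ℝ} (hA : 0 ≤ A) (hAB : A ≤ B)
    (h : ∀ u ∈ S, A ≤ (u : ℝ) ∧ (u : ℝ) < B) : (S.card : ℝ) ≤ B - A + 1 := by
  have h1 : S ⊆ Ico ⌈A⌉₊ ⌈B⌉₊ := fun u hu =>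
    mem_Ico.2 ⟨Nat.ceil_le.2 (h u hu).1, Nat.lt_ceil.2 (h u hu).2⟩
  have h2 := card_le_card h1
  rw [Nat.card_Ico] at h2
  have h3 : (S.card : ℝ) ≤ ((⌈B⌉₊ - ⌈A⌉₊ : ℕ) : ℝ) := by exact_mod_cast h2
  rw [Nat.cast_sub (Nat.ceil_mono hAB)] at h3
  linarith [Nat.le_ceil A, Nat.ceil_lt_add_one (hA.trans hAB)]

/-- the number of multiples of m in a window -/
theorem card_mul_le {S : Finset ℕ} {x L M m : ℕ} (hM : 0 < M) (hML : M ≤ L) (hm : M ≤ m)
    (h : ∀ u ∈ S, x ≤ u * m ∧ u * m < x + L) : (S.card : ℝ) ≤ 2 * L / M := by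
  have hM' : (0 : ℝ) < M := by exact_mod_cast hM
  have hm' : (M : ℝ) ≤ m := by exact_mod_cast hm
  have hm0 : (0 : ℝ) < m := by linarith
  have h1 := card_le_of_between (S := S) (A := (x : ℝ) / m) (B := ((x : ℝ) + L) / m)
    (by positivity) (by gcongr; linarith [Nat.cast_nonneg (α := ℝ) L]) fun u hu => by
      rw [div_le_iff₀ hm0, lt_div_iff₀ hm0]
      exact_mod_cast h u hu
  have h2 : (L : ℝ) / m ≤ L / M := by gcongr
  have h3 : (1 : ℝ) ≤ L / M := by rw [one_le_div hM']; exact_mod_cast hML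
  rw [add_div] at h1
  rw [mul_div_assoc]
  linarith

/-- first common point and end of the windows of two dilates -/
def lo (x : ℕ) (e : ℕ × ℕ) : ℕ := max (x ⌈/⌉ e.1) (x ⌈/⌉ e.2)
def hi (y : ℕ) (e : ℕ × ℕ) : ℕ := min (y ⌈/⌉ e.1) (y ⌈/⌉ e.2)

theorem mem_lohi {x y u : ℕ} {e : ℕ × ℕ} (h1 : 0 < e.1) (h2 : 0 < e.2) :
    u ∈ Ico (lo x e) (hi y e) ↔ (x ≤ u * e.1 ∧ u * e.1 < y) ∧ (x ≤ u * e.2 ∧ u * e.2 < y) := by
  simp only [lo, hi, mem_Ico, max_le_iff, lt_min_iff, ← not_le (a := _ ⌈/⌉ _),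
    ceilDiv_le_iff_le_mul h1, ceilDiv_le_iff_le_mul h2, not_le, mul_comm u]
  tauto

/-- the correlation of two dilates -/
def cc (φ : ℤ → ℂ) (x L : ℕ) (e : ℕ × ℕ) : ℂ :=
  ∑ u ∈ Ico (lo x e) (hi (x + L) e),
    φ ((u * e.1 : ℕ) : ℤ) * (starRingEnd ℂ) (φ ((u * e.2 : ℕ) : ℤ))

theorem norm_cc_le {φ : ℤ → ℂ} (hφ : ∀ n, ‖φ n‖ ≤ 1) (x L : ℕ) (e : ℕ × ℕ) :
    ‖cc φ x L e‖ ≤ (Ico (lo x e) (hi (x + L) e)).card := by
  refine (norm_sum_le _ _).trans ((sum_le_card_nsmul _ _ 1 fun u _ => ?_).trans (by simp))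
  rw [norm_mul, RCLike.norm_conj]
  exact mul_le_one₀ (hφ _) (norm_nonneg _) (hφ _)

theorem cc_eq (φ : ℤ → ℂ) (x L : ℕ) (e : ℕ × ℕ) : cc φ x L e =
    ∑ t ∈ Ico (0 : ℤ) ((hi (x + L) e - lo x e : ℕ) : ℤ),
      φ (((lo x e : ℤ) + t) * (e.1 : ℤ)) * (starRingEnd ℂ) (φ (((lo x e : ℤ) + t) * (e.2 : ℤ))) := by
  unfold cc
  rw [sum_Ico_eq_sum_range]
  refine sum_nbij' (fun t => (t : ℤ)) Int.toNat (fun t ht => ?_) (fun t ht => ?_)
    (fun t _ => Int.toNat_natCast t) (fun t ht => Int.toNat_of_nonneg (mem_Ico.1 ht).1)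
    fun t _ => by push_cast; rfl
  · exact mem_Ico.2 ⟨Int.natCast_nonneg t, by exact_mod_cast mem_range.1 ht⟩
  · have := mem_Ico.1 ht
    exact mem_range.2 (by omega)

theorem norm_sq_sum {ι : Type*} (T : Finset ι) (f : ι → ℂ) :
    ((‖∑ m ∈ T, f m‖ ^ 2 : ℝ) : ℂ) = ∑ e ∈ T ×ˢ T, f e.1 * (starRingEnd ℂ) (f e.2) := by
  rw [sum_product, Complex.ofReal_pow, ← Complex.mul_conj', map_sum, sum_mul_sum]

/-- the two bounds for one cell -/
theorem cell {T : Finset ℕ} {M N a x L : ℕ} {φ : ℤ → ℂ} {α β : ℕ → ℂ} (hM : 0 < M) (hML : M ≤ L)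
    (ha : M ≤ a) (hT : ∀ m ∈ T, a ≤ m ∧ m < a + N) (hx : x * N ≤ L * M) (hφ : ∀ n, ‖φ n‖ ≤ 1)
    (hα : ∀ u, ‖α u‖ ≤ 1) (hβ : ∀ m, ‖β m‖ ≤ 1) :
    ‖∑ p ∈ pairs T x L, β p.1 * α p.2 * φ ((p.2 * p.1 : ℕ) : ℤ)‖ ≤ T.card * (2 * L / M) ∧
    ‖∑ p ∈ pairs T x L, β p.1 * α p.2 * φ ((p.2 * p.1 : ℕ) : ℤ)‖ ^ 2 ≤
      3 * L / M * ∑ e ∈ T ×ˢ T, ‖cc φ x L e‖ := by
  have hM' : (0 : ℝ) < M := by exact_mod_cast hM
  have hpos : ∀ m ∈ T, 0 < m := fun m hm => by have := (hT m hm).1; omega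
  constructor
  · unfold pairs
    rw [sum_filter, sum_product]
    refine (norm_sum_le _ _).trans ((sum_le_card_nsmul _ _ (2 * L / M : ℝ) fun m hm => ?_).trans
      (by rw [nsmul_eq_mul]))
    rw [← sum_filter]
    refine (norm_sum_le _ _).trans ((sum_le_card_nsmul _ _ 1 fun u _ => ?_).trans ?_)
    · rw [norm_mul, norm_mul]
      exact mul_le_one₀ (mul_le_one₀ (hβ _) (norm_nonneg _) (hα _)) (norm_nonneg _) (hφ _)
    · rw [nsmul_eq_mul, mul_one]
      exact card_mul_le hM hML (ha.trans (hT m hm).1) fun u hu => (mem_filter.1 hu).2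
  set Us := (range (x + L)).filter fun u => x ≤ u * (a + N) ∧ u * a < x + L with hUs
  have hmem : ∀ m ∈ T, ∀ u, x ≤ u * m → u * m < x + L → u ∈ Us := by
    intro m hm u h1 h2
    obtain ⟨h3, h4⟩ := hT m hm
    exact mem_filter.2 ⟨mem_range.2 ((Nat.le_mul_of_pos_right _ (hpos m hm)).trans_lt h2),
      h1.trans (Nat.mul_le_mul_left _ h4.le), (Nat.mul_le_mul_left _ h3).trans_lt h2⟩
  have hcard : (Us.card : ℝ) ≤ 3 * L / M := by
    have ha' : (M : ℝ) ≤ a := by exact_mod_cast ha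
    have ha0 : (0 : ℝ) < a := by linarith
    have hN : (0 : ℝ) ≤ N := Nat.cast_nonneg _
    have hL : (0 : ℝ) ≤ L := Nat.cast_nonneg _
    have h1 := card_le_of_between (S := Us) (A := (x : ℝ) / (a + N)) (B := ((x : ℝ) + L) / a)
      (by positivity) (by gcongr <;> linarith) fun u hu => by
        rw [div_le_iff₀ (by linarith), lt_div_iff₀ ha0]
        exact_mod_cast (mem_filter.1 hu).2
    have h2 : (L : ℝ) / a ≤ L / M := by gcongr
    have h3 : (1 : ℝ) ≤ L / M := by rw [one_le_div hM']; exact_mod_cast hML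
    have h4 : (x : ℝ) / a - x / (a + N) ≤ L / M := by
      have h5 : (x : ℝ) * N ≤ L * M := by exact_mod_cast hx
      calc (x : ℝ) / a - x / (a + N) = x * N / (a * (a + N)) := by field_simp; ring
        _ ≤ L * M / (M * M) := by gcongr; linarith
        _ = L / M := by field_simp
    rw [add_div] at h1
    rw [mul_div_assoc]
    linarith
  set g : ℕ → ℕ → ℂ := fun u m =>
    if x ≤ u * m ∧ u * m < x + L then β m * φ ((u * m : ℕ) : ℤ) else 0 with hg
  have e1 : ∑ p ∈ pairs T x L, β p.1 * α p.2 * φ ((p.2 * p.1 : ℕ) : ℤ) =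
      ∑ u ∈ Us, α u * ∑ m ∈ T, g u m := by
    unfold pairs
    rw [sum_filter, sum_product, sum_comm]
    symm
    refine (sum_subset (filter_subset _ _) fun u _ hu => ?_).trans (sum_congr rfl fun u _ => ?_)
    · rw [sum_eq_zero fun m hm => if_neg fun h => hu (hmem m hm u h.1 h.2), mul_zero]
    · rw [mul_sum]
      refine sum_congr rfl fun m _ => ?_
      simp only [hg]
      split_ifs <;> ring
  have e2 : ∀ e ∈ T ×ˢ T, ∑ u ∈ Us, g u e.1 * (starRingEnd ℂ) (g u e.2) =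
      β e.1 * (starRingEnd ℂ) (β e.2) * cc φ x L e := by
    intro e he
    obtain ⟨h1, h2⟩ := mem_product.1 he
    have hsub : Ico (lo x e) (hi (x + L) e) ⊆ Us := fun u hu =>
      let k := (mem_lohi (hpos _ h1) (hpos _ h2)).1 hu
      hmem _ h1 u k.1.1 k.1.2
    unfold cc
    rw [mul_sum]
    symm
    refine (sum_congr rfl fun u hu => ?_).trans (sum_subset hsub fun u _ hu => ?_)
    · have k := (mem_lohi (hpos _ h1) (hpos _ h2)).1 hu
      simp only [hg, if_pos k.1, if_pos k.2, map_mul]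
      ring
    · rw [mem_lohi (hpos _ h1) (hpos _ h2), not_and_or] at hu
      rcases hu with hu | hu
      · simp only [hg, if_neg hu, zero_mul]
      · simp only [hg, if_neg hu, map_zero, mul_zero]
  have e3 : ∑ u ∈ Us, ‖∑ m ∈ T, g u m‖ ^ 2 ≤ ∑ e ∈ T ×ˢ T, ‖cc φ x L e‖ := by
    have h1 : ((∑ u ∈ Us, ‖∑ m ∈ T, g u m‖ ^ 2 : ℝ) : ℂ) =
        ∑ e ∈ T ×ˢ T, β e.1 * (starRingEnd ℂ) (β e.2) * cc φ x L e := by
      rw [Complex.ofReal_sum, sum_congr rfl fun u _ => norm_sq_sum T (g u), sum_comm,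
        sum_congr rfl e2]
    refine (le_abs_self _).trans ?_
    rw [← Real.norm_eq_abs, ← Complex.norm_real, h1]
    refine (norm_sum_le _ _).trans (sum_le_sum fun e _ => ?_)
    rw [norm_mul, norm_mul, RCLike.norm_conj]
    exact mul_le_of_le_one_left (norm_nonneg _) (mul_le_one₀ (hβ _) (norm_nonneg _) (hβ _))
  rw [e1]
  calc _ ≤ (∑ u ∈ Us, ‖∑ m ∈ T, g u m‖) ^ 2 := by
        refine pow_le_pow_left₀ (norm_nonneg _) ((norm_sum_le _ _).trans (sum_le_sum fun u _ => ?_)) 2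
        rw [norm_mul]
        exact mul_le_of_le_one_left (norm_nonneg _) (hα u)
    _ ≤ Us.card * ∑ u ∈ Us, ‖∑ m ∈ T, g u m‖ ^ 2 := sq_sum_le_card_mul_sum_sq
    _ ≤ _ := mul_le_mul hcard e3 (sum_nonneg fun _ _ => by positivity) (by positivity)

/-- the cell of m -/
def idx (Z m : ℕ) : ℕ × ℕ := (Nat.log 2 m, m / (2 ^ Nat.log 2 m / (Z + 1)))

theorem scale {Z w m : ℕ} (hw : 1 ≤ w) (h : 4 * (Z + 1) * w ≤ m) :
    w ≤ 2 ^ Nat.log 2 m / (Z + 1) ∧
      2 ^ Nat.log 2 m ≤ 2 * (Z + 1) * (2 ^ Nat.log 2 m / (Z + 1)) := by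
  have h1 : m < 2 ^ (Nat.log 2 m + 1) := Nat.lt_pow_succ_log_self one_lt_two m
  rw [pow_succ] at h1
  generalize 2 ^ Nat.log 2 m = M at *
  have h2 : w ≤ M / (Z + 1) := (Nat.le_div_iff_mul_le (by omega)).2 (by nlinarith)
  have h3 : M < (Z + 1) * (M / (Z + 1) + 1) := Nat.lt_mul_div_succ M (by omega)
  exact ⟨h2, by nlinarith⟩

theorem log_count {z K M2 : ℕ} (hz : 2 ≤ z) (hK : 1 ≤ K) (h : M2 ≤ z ^ K) :
    ((Nat.log 2 M2 + 1 : ℕ) : ℝ) ≤ 3 * K * Real.log z := by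
  have hz' : (2 : ℝ) ≤ z := by exact_mod_cast hz
  have hK' : (1 : ℝ) ≤ K := by exact_mod_cast hK
  have h1 : 2 ^ Nat.log 2 M2 ≤ z ^ K := by
    rcases Nat.eq_zero_or_pos M2 with rfl | h0
    · simpa using Nat.one_le_pow _ _ (by omega)
    · exact (Nat.pow_log_le_self 2 h0.ne').trans h
  have h2 : (2 : ℝ) ^ Nat.log 2 M2 ≤ (z : ℝ) ^ K := by exact_mod_cast h1
  have h3 := Real.log_le_log (by positivity) h2
  rw [Real.log_pow, Real.log_pow] at h3
  have h4 := Real.log_le_log two_pos hz'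
  have h5 := Real.log_two_gt_d9
  have h6 : (0 : ℝ) ≤ Nat.log 2 M2 := Nat.cast_nonneg _
  push_cast
  nlinarith

end CS

open CS in
theorem cs : S_CS := by
  classical
  obtain ⟨Ks, hKs, hS⟩ := rough_class
  refine ⟨30 + 2700 * Ks ^ 2, by positivity,
    fun z M1 M2 K Z x L δ φ hz hM1 hM2 hK hL hx hδ hφ hT => ?_⟩
  simp only [TII, not_forall, not_le] at hT
  obtain ⟨α, β, hα, hβ, hbig⟩ := hT
  have hz' : (2 : ℝ) ≤ z := by exact_mod_cast hz
  have hK' : (1 : ℝ) ≤ K := by exact_mod_cast hK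
  have lz : 0 < Real.log z := Real.log_pos (by linarith)
  have hw : 1 ≤ z ^ 10 := Nat.one_le_pow _ _ (by omega)
  set MM := roughs z M1 M2 with hMM
  set I := range (Nat.log 2 M2 + 1) ×ˢ range (4 * (Z + 1) + 1) with hI
  have hmaps : ∀ p ∈ pairs MM x L, idx Z p.1 ∈ I := by
    intro p hp
    obtain ⟨⟨h1, h2⟩, -⟩ := mem_roughs.1 (mem_product.1 (mem_filter.1 hp).1).1
    obtain ⟨h3, h4⟩ := scale hw (hM1.trans h1)
    have h5 : p.1 < 2 ^ (Nat.log 2 p.1 + 1) := Nat.lt_pow_succ_log_self one_lt_two _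
    have h6 : Nat.log 2 p.1 ≤ Nat.log 2 M2 := Nat.log_mono_right h2
    refine mem_product.2 ⟨mem_range.2 (Nat.lt_succ_of_le h6),
      mem_range.2 (Nat.lt_succ_of_le (Nat.div_le_of_le_mul (m := p.1) ?_))⟩
    rw [pow_succ] at h5
    nlinarith
  have hIc : (I.card : ℝ) ≤ 15 * K * (Z + 1) * Real.log z := by
    rw [hI, card_product, card_range, card_range, Nat.cast_mul]
    have h1 : ((4 * (Z + 1) + 1 : ℕ) : ℝ) ≤ 5 * (Z + 1) := by
      push_cast; linarith [Nat.cast_nonneg (α := ℝ) Z]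
    calc _ ≤ 3 * K * Real.log z * (5 * (Z + 1)) :=
          mul_le_mul (log_count hz hK hM2) h1 (by positivity) (by positivity)
      _ = _ := by ring
  have hex : ∃ c ∈ I, δ * L / (15 * K * (Z + 1) * Real.log z) <
      ‖∑ p ∈ pairs (MM.filter fun m => idx Z m = c) x L,
        β p.1 * α p.2 * φ ((p.2 * p.1 : ℕ) : ℤ)‖ := by
    by_contra hcon
    push Not at hcon
    refine absurd hbig (not_lt.2 ?_)
    rw [← sum_fiberwise_of_maps_to hmaps]
    refine (norm_sum_le _ _).trans ((sum_le_card_nsmul _ _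
      (δ * L / (15 * K * (Z + 1) * Real.log z)) fun c hc => ?_).trans ?_)
    · have e : (pairs MM x L).filter (fun p => idx Z p.1 = c) =
          pairs (MM.filter fun m => idx Z m = c) x L := by
        ext p
        simp only [pairs, mem_filter, mem_product]
        tauto
      rw [e]
      exact hcon c hc
    · rw [nsmul_eq_mul]
      calc _ ≤ 15 * K * (Z + 1) * Real.log z * (δ * L / (15 * K * (Z + 1) * Real.log z)) := by
            gcongr
        _ = _ := by field_simp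
  obtain ⟨⟨k, j⟩, -, hc⟩ := hex
  set T := MM.filter fun m => idx Z m = (k, j) with hTdef
  have hne : T.Nonempty := by
    rw [nonempty_iff_ne_empty]
    intro h
    rw [h] at hc
    simp only [pairs, empty_product, filter_empty, sum_empty, norm_zero] at hc
    exact absurd hc (not_lt.2 (by positivity))
  set M := 2 ^ k with hM
  set N := M / (Z + 1) with hN
  have hTm : ∀ m ∈ T, m ∈ MM ∧ Nat.log 2 m = k ∧ m / N = j := by
    intro m hm
    obtain ⟨h1, h2⟩ := mem_filter.1 hm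
    obtain ⟨h3, h4⟩ := Prod.ext_iff.1 h2
    simp only [idx] at h3 h4
    rw [h3] at h4
    exact ⟨h1, h3, h4⟩
  obtain ⟨m0, hm0⟩ := hne
  obtain ⟨k1, k2, -⟩ := hTm m0 hm0
  obtain ⟨⟨k3, k4⟩, -⟩ := mem_roughs.1 k1
  obtain ⟨hzN, hMN⟩ := scale hw (hM1.trans k3)
  rw [k2, ← hM, ← hN] at hzN hMN
  have hN0 : 0 < N := by omega
  have hM0 : 0 < M := by positivity
  have hNM : N * (Z + 1) ≤ M := Nat.div_mul_le_self M (Z + 1)
  have hTb : ∀ m ∈ T, (M ≤ m ∧ m < 2 * M) ∧ j * N ≤ m ∧ m < j * N + N := by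
    intro m hm
    obtain ⟨h1, h2, h3⟩ := hTm m hm
    have h4 : m ≠ 0 := by
      have := (mem_roughs.1 h1).1.1
      have : 0 < 4 * (Z + 1) * z ^ 10 := by positivity
      omega
    have h5 := Nat.pow_log_le_self 2 h4
    have h6 := Nat.lt_pow_succ_log_self one_lt_two m
    rw [h2] at h5 h6
    rw [pow_succ] at h6
    have h7 := Nat.div_mul_le_self m N
    have h8 := Nat.lt_div_mul_add (a := m) hN0
    rw [h3] at h7 h8
    exact ⟨⟨h5, by omega⟩, h7, h8⟩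
  have hMM2 : M ≤ M2 := (hTb m0 hm0).1.1.trans k4
  have hML : M ≤ L := hMM2.trans hL
  obtain ⟨b1, b2⟩ := CS.cell (T := T) (N := N) (a := max M (j * N)) (x := x) hM0 hML (le_max_left _ _)
    (fun m hm => by have := hTb m hm; omega)
    (by
      calc x * N ≤ Z * L * N := Nat.mul_le_mul_right _ hx
        _ = L * (N * Z) := by ring
        _ ≤ L * M := Nat.mul_le_mul_left _ ((Nat.mul_le_mul_left _ (Nat.le_succ Z)).trans hNM))
    hφ hα hβ
  have hM' : (0 : ℝ) < M := by exact_mod_cast hM0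
  have hL' : (0 : ℝ) < L := by exact_mod_cast hM0.trans_le hML
  have hN' : (0 : ℝ) < N := by exact_mod_cast hN0
  have hlow : δ * N / (15 * K * Real.log z) * (L / M) ≤
      δ * L / (15 * K * (Z + 1) * Real.log z) := by
    have h1 : (N : ℝ) * (Z + 1) ≤ M := by exact_mod_cast hNM
    rw [div_mul_div_comm, div_le_div_iff₀ (by positivity) (by positivity)]
    calc δ * N * L * (15 * K * (Z + 1) * Real.log z)
        = δ * L * (15 * K * Real.log z * (N * (Z + 1))) := by ring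
      _ ≤ _ := by gcongr
  have hc' := hlow.trans hc.le
  have hrough : ∀ m ∈ T.map Nat.castEmbedding, ∀ p : ℕ, p.Prime → p ≤ z → ¬(p : ℤ) ∣ m := by
    intro m hm p hp hpz
    obtain ⟨n, hn, rfl⟩ := mem_map.1 hm
    rw [Nat.castEmbedding_apply, Int.natCast_dvd_natCast]
    exact (mem_roughs.1 (hTm n hn).1).2 p hp hpz
  have hsv : (T.card : ℝ) * Real.log z ≤ Ks * N := by
    have h1 := hS z 1 N ((j * N : ℕ) : ℤ) 0 (T.map Nat.castEmbedding) hz one_pos
      (by rw [mul_one]; exact (Nat.pow_le_pow_right (by omega) (by norm_num)).trans hzN)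
      (fun m hm => by
        obtain ⟨n, hn, rfl⟩ := mem_map.1 hm
        rw [Nat.castEmbedding_apply, mem_Ico]
        exact_mod_cast (hTb n hn).2)
      (fun m _ => by simpa using Int.modEq_one) fun m hm p hp hpz _ => hrough m hm p hp hpz
    simpa using h1
  set θ := δ ^ 2 / (1350 * K ^ 2 * Ks ^ 2) with hθ
  have hθ0 : 0 < θ := by positivity
  set E := (T ×ˢ T).filter fun e => θ * (L / M) ≤ ‖cc φ x L e‖ with hE
  have hU : ∀ e ∈ T ×ˢ T, ((Ico (lo x e) (hi (x + L) e)).card : ℝ) ≤ 2 * L / M := by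
    intro e he
    obtain ⟨h1, h2⟩ := mem_product.1 he
    have h3 := (hTb _ h1).1.1
    have h4 := (hTb _ h2).1.1
    exact card_mul_le hM0 hML h3 fun u hu => ((mem_lohi (by omega) (by omega)).1 hu).1
  have hsum : ∑ e ∈ T ×ˢ T, ‖cc φ x L e‖ ≤ (2 * E.card + θ * (T.card : ℝ) ^ 2) * (L / M) := by
    rw [← sum_filter_add_sum_filter_not (T ×ˢ T) fun e => θ * (L / M) ≤ ‖cc φ x L e‖, add_mul]
    refine add_le_add ((sum_le_card_nsmul _ _ (2 * L / M : ℝ) fun e he =>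
      (norm_cc_le hφ x L e).trans (hU e (mem_filter.1 he).1)).trans (le_of_eq ?_))
      ((sum_le_card_nsmul _ _ (θ * (L / M)) fun e he => (not_le.1 (mem_filter.1 he).2).le).trans ?_)
    · rw [nsmul_eq_mul]; ring
    · have h1 : (((T ×ˢ T).filter fun e => ¬θ * (L / M) ≤ ‖cc φ x L e‖).card : ℝ) ≤
          (T.card : ℝ) ^ 2 := by
        have := card_filter_le (T ×ˢ T) fun e => ¬θ * (L / M) ≤ ‖cc φ x L e‖
        rw [card_product, ← sq] at this
        exact_mod_cast this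
      rw [nsmul_eq_mul, mul_comm θ ((T.card : ℝ) ^ 2), mul_assoc]
      gcongr
  have hLM : (0 : ℝ) < L / M := by positivity
  refine ⟨M, N, T.map Nat.castEmbedding, E.map (Nat.castEmbedding.prodMap Nat.castEmbedding),
    hMM2, hzN, Nat.div_le_self _ _, hMN, fun m hm => ?_, fun m hm m' hm' => ?_, hrough, ?_,
    fun e he => ?_, ?_, fun e he => ?_⟩
  · obtain ⟨n, hn, rfl⟩ := mem_map.1 hm
    have := (hTb n hn).1.2
    rw [Nat.castEmbedding_apply]
    omega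
  · obtain ⟨n, hn, rfl⟩ := mem_map.1 hm
    obtain ⟨n', hn', rfl⟩ := mem_map.1 hm'
    have h1 := (hTb n hn).2
    have h2 := (hTb n' hn').2
    rw [Nat.castEmbedding_apply, Nat.castEmbedding_apply, abs_le]
    generalize j * N = b at h1 h2
    omega
  · rw [card_map]
    have h1 := hc'.trans b1
    rw [mul_div_assoc 2, ← mul_assoc, mul_le_mul_iff_left₀ hLM, div_le_iff₀ (by positivity)] at h1
    have h2 : 0 ≤ Ks ^ 2 * (K * (Real.log z * T.card)) := by positivity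
    nlinarith
  · obtain ⟨e', he', rfl⟩ := mem_map.1 he
    obtain ⟨h1, h2⟩ := mem_product.1 (mem_filter.1 he').1
    exact mem_product.2 ⟨mem_map_of_mem _ h1, mem_map_of_mem _ h2⟩
  · rw [card_map, card_map]
    have h1 : δ * T.card / (15 * K * Ks) ≤ δ * N / (15 * K * Real.log z) := by
      rw [div_le_div_iff₀ (by positivity) (by positivity)]
      calc δ * T.card * (15 * K * Real.log z) = δ * (15 * K) * (T.card * Real.log z) := by ring
        _ ≤ δ * (15 * K) * (Ks * N) := by gcongr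
        _ = _ := by ring
    have h2 : (δ * T.card / (15 * K * Ks) * (L / M)) ^ 2 ≤
        3 * L / M * ((2 * E.card + θ * (T.card : ℝ) ^ 2) * (L / M)) :=
      (pow_le_pow_left₀ (by positivity)
        ((mul_le_mul_of_nonneg_right h1 hLM.le).trans hc') 2).trans (b2.trans (by gcongr))
    have h3 : (δ * T.card / (15 * K * Ks)) ^ 2 ≤ 3 * (2 * E.card + θ * (T.card : ℝ) ^ 2) := by
      refine le_of_mul_le_mul_right ?_ (pow_pos hLM 2)
      calc _ = (δ * T.card / (15 * K * Ks) * (L / M)) ^ 2 := by ring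
        _ ≤ _ := h2
        _ = _ := by ring
    have h4 : (δ * T.card / (15 * K * Ks)) ^ 2 = 6 * (θ * (T.card : ℝ) ^ 2) := by
      rw [hθ]; field_simp; ring
    have h5 : δ ^ 2 * (T.card : ℝ) ^ 2 = 1350 * K ^ 2 * Ks ^ 2 * (θ * (T.card : ℝ) ^ 2) := by
      rw [hθ]; field_simp
    have h6 : θ * (T.card : ℝ) ^ 2 ≤ 2 * E.card := by linarith
    calc δ ^ 2 * (T.card : ℝ) ^ 2 = _ := h5
      _ ≤ 1350 * K ^ 2 * Ks ^ 2 * (2 * E.card) := by gcongr
      _ = 2700 * Ks ^ 2 * K ^ 2 * E.card := by ring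
      _ ≤ _ := by gcongr; linarith
  · obtain ⟨e', he', rfl⟩ := mem_map.1 he
    obtain ⟨h1, h2⟩ := mem_filter.1 he'
    have h3 := hU e' h1
    have h4 := norm_cc_le hφ x L e'
    rw [Nat.card_Ico] at h3 h4
    refine ⟨lo x e', ((hi (x + L) e' - lo x e' : ℕ) : ℤ), ?_, ?_, ?_⟩
    · have : (0 : ℝ) < ((hi (x + L) e' - lo x e' : ℕ) : ℝ) :=
        (mul_pos hθ0 hLM).trans_le (h2.trans h4)
      exact_mod_cast this
    · rw [le_div_iff₀ hM'] at h3
      exact_mod_cast h3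
    · have e1 := cc_eq φ x L e'
      refine le_trans ?_ (le_of_eq (congrArg (fun w => (30 + 2700 * Ks ^ 2) * K ^ 2 * M * ‖w‖) e1))
      calc δ ^ 2 * L = 1350 * Ks ^ 2 * K ^ 2 * M * (θ * (L / M)) := by rw [hθ]; field_simp
        _ ≤ _ := by gcongr; nlinarith [sq_nonneg Ks]

end Pool.Agent.P.MP_a14ce1_nt.Nil.Dc
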