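import Pool.Agent.P.MP_a14ce1_nt.Nil.Dec.St

/-! Gluing decompositions along residue classes. -/

open Finset

namespace Pool.Agent.P.MP_a14ce1_nt.Nil.Dc

/-- a function that agrees on each class with a function with small type II forms -/
theorem tii_cls {MM : Finset ℕ} {x L q : ℕ} (hq : 0 < q) {g : ℤ → ℤ → ℂ} {c : ℝ}
    (h : ∀ a, TII MM x L (g a) c) : TII MM x L (fun n => g (n % q) n) ((q : ℝ) ^ 2 * c) := by
  intro α β ha hb
  have e : ∀ a : ℕ × ℕ, β a.1 * α a.2 * g (((a.2 * a.1 : ℕ) : ℤ) % q) ((a.2 * a.1 : ℕ) : ℤ) =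
      ∑ r ∈ range q, ∑ s ∈ range q, (if a.1 % q = r then β a.1 else 0) *
        (if a.2 % q = s then α a.2 else 0) * g (((s * r : ℕ) : ℤ) % q) ((a.2 * a.1 : ℕ) : ℤ) := by
    intro a
    rw [sum_eq_single_of_mem (a.1 % q) (mem_range.2 (Nat.mod_lt _ hq))
      (fun r _ hr => by simp [hr.symm]),
      sum_eq_single_of_mem (a.2 % q) (mem_range.2 (Nat.mod_lt _ hq))
      (fun s _ hs => by simp [hs.symm]), if_pos rfl, if_pos rfl, ← Int.natCast_mod,
      ← Int.natCast_mod, ← Nat.mul_mod]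
  simp only [e]
  rw [sum_comm]
  refine (norm_sum_le _ _).trans ?_
  have k : ∀ r ∈ range q, ‖∑ a ∈ pairs MM x L, ∑ s ∈ range q, (if a.1 % q = r then β a.1 else 0) *
      (if a.2 % q = s then α a.2 else 0) * g (((s * r : ℕ) : ℤ) % q) ((a.2 * a.1 : ℕ) : ℤ)‖
      ≤ q * c := by
    intro r _
    rw [sum_comm]
    refine (norm_sum_le _ _).trans ?_
    have := sum_le_card_nsmul (range q) (fun s => ‖∑ a ∈ pairs MM x L,
      (if a.1 % q = r then β a.1 else 0) * (if a.2 % q = s then α a.2 else 0) *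
        g (((s * r : ℕ) : ℤ) % q) ((a.2 * a.1 : ℕ) : ℤ)‖) c fun s _ =>
      h _ (fun u => if u % q = s then α u else 0) (fun m => if m % q = r then β m else 0)
        (fun u => by split_ifs; exacts [ha u, by simp]) (fun m => by split_ifs; exacts [hb m, by simp])
    rwa [card_range, nsmul_eq_mul] at this
  have := sum_le_card_nsmul _ _ _ k
  rw [card_range, nsmul_eq_mul] at this
  refine this.trans (le_of_eq (by ring))

theorem cls : S_Cls := by
  intro W MM x L q φ nB c η _ hq hW _ h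
  choose φ' h1 h2 using h
  choose ψ B k1 k2 k3 k4 using h1
  have hq' : (0 : ℤ) < q := by exact_mod_cast hq
  refine ⟨fun n => ψ (n % q) n, (Ico (0 : ℤ) q).biUnion B, fun n => k1 _ _, ?_, ?_, ?_⟩
  · have e1 : (((Ico (0 : ℤ) q).biUnion B).card : ℝ) ≤ ∑ a ∈ Ico (0 : ℤ) q, ((B a).card : ℝ) := by
      exact_mod_cast card_biUnion_le
    have e2 := sum_le_card_nsmul (Ico (0 : ℤ) q) (fun a => ((B a).card : ℝ)) nB fun a _ => k2 a
    rw [Int.card_Ico, sub_zero, Int.toNat_natCast, nsmul_eq_mul] at e2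
    exact e1.trans e2
  · intro a b hab hd hB
    have e : a % q = b % q :=
      Int.modEq_iff_dvd.2 ((Int.natCast_dvd_natCast.2 hW).trans hd)
    simp only [← e]
    exact k3 _ a b hab hd fun t ht => hB t (mem_biUnion.2 ⟨a % q,
      mem_Ico.2 ⟨Int.emod_nonneg _ hq'.ne', Int.emod_lt_of_pos _ hq'⟩, ht⟩)
  · have t1 := tii_cls hq (g := fun a n => φ' a n - ψ a n) k4
    have t2 := tii_bound (MM := MM) (x := x) (L := L) (φ := fun n => φ n - φ' (n % q) n) (η := η)
      fun n a b => h2 _ n a b (Int.dvd_self_sub_emod)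
    convert tii_add t1 t2 using 2 with n
    ring

end Pool.Agent.P.MP_a14ce1_nt.Nil.Dc
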