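import Pool.Agent.P.MP_a14ce1_nt.Nil.Dec.St
import Pool.Agent.P.MP_a14ce1_nt.Nil.PigF
import Pool.Agent.P.MP_a14ce1_nt.Nil.LeibA

/-!
Nonzero frequencies have tiny type II forms.
-/

open Filter Finset

set_option linter.unusedSectionVars false

noncomputable section

namespace Pool.Agent.P.MP_a14ce1_nt.Nil.Dc

namespace CoreP

variable {ι : Type} [Fintype ι] [DecidableEq ι] {lv : ι → ℕ} {Q : HR} [Fact (2 ≤ Q)]
  {g : Fam (KK Q) lv ℕ}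

theorem adm1 {i : ℕ} {η} (h : Adm (g.prod g) ⊥ i η) (h0 : ∃ X ∈ g.r i, η (dg X 0) ≠ 0) :
    Adm g ⊥ i (η ∘ₗ in1) := by
  refine ⟨h.pos, h.rat.comp ratM_in1, h0, fun X hX => h.nxt _ (Fam.dg_mem_prod.2 ⟨hX, zero_mem _⟩),
    fun a b hab X hX Y hY => ?_, fun X hX => ?_⟩
  · have := h.br a b hab _ (Fam.dg_mem_prod.2 ⟨hX, zero_mem _⟩) _
      (Fam.dg_mem_prod.2 ⟨hY, zero_mem _⟩)
    rwa [dg_br, mul_zero, sub_zero] at this
  · rw [(Submodule.mem_bot HR).1 hX.2, map_zero]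

theorem adm2 {i : ℕ} {η} (h : Adm (g.prod g) ⊥ i η) (h0 : ∃ X ∈ g.r i, η (dg 0 X) ≠ 0) :
    Adm g ⊥ i (η ∘ₗ in2) := by
  refine ⟨h.pos, h.rat.comp ratM_in2, h0, fun X hX => h.nxt _ (Fam.dg_mem_prod.2 ⟨zero_mem _, hX⟩),
    fun a b hab X hX Y hY => ?_, fun X hX => ?_⟩
  · have := h.br a b hab _ (Fam.dg_mem_prod.2 ⟨zero_mem _, hX⟩) _
      (Fam.dg_mem_prod.2 ⟨zero_mem _, hY⟩)
    rwa [dg_br, mul_zero, sub_zero] at this
  · rw [(Submodule.mem_bot HR).1 hX.2, map_zero]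

theorem dg_mem {x y : PS lv Unit HR} (hx : x ∈ (g.fine Unit).PG) (hy : y ∈ (g.fine Unit).PG) :
    UT.dg (x, y) ∈ ((g.prod g).fine Unit).PG := by
  rw [Fam.prod_fine]
  exact Fam.dg_mem_prod_PG.2 ⟨hx, hy⟩

theorem coef {D i : ℕ} {n η} (h : Adm (g.prod g) n i η) (hg : g.Fil D) {y : PS lv Unit HR}
    (hy : y ∈ (g.fine Unit).PG) (a a' : Unit → HR) (m m' : HR) :
    η (cf i (UT.dg (pg a m y, pg a' m' y))) =
      m ^ i * η (dg (cf i y) 0) + m' ^ i * η (dg 0 (cf i y)) := by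
  have hβ : (Finsupp.single () i).degree = i := by simp
  have h1 := h.pg (hg.prod hg) (dg_mem hy (one_mem _)) a m hβ
  have h2 := h.pg (hg.prod hg) (dg_mem (one_mem _) hy) a' m' hβ
  have e1 : pg a m (UT.dg (y, (1 : PS lv Unit HR))) = UT.dg (pg a m y, 1) := by
    rw [pg, sb_dg, map_one]; rfl
  have e2 : pg a' m' (UT.dg ((1 : PS lv Unit HR), y)) = UT.dg (1, pg a' m' y) := by
    rw [pg, sb_dg, map_one]; rfl
  rw [e1, co_lg_dg, co_lg_dg, lg_one, co_zero] at h1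
  rw [e2, co_lg_dg, co_lg_dg, lg_one, co_zero] at h2
  rw [cf, co_lg_dg, dg_eq_in, map_add, in1_apply, in2_apply, h1, h2]

theorem ev_pt (s m : HZ) (t : Unit → HZ) (y : PS lv Unit HR) :
    ev (zv t) (pg (zv fun _ => s * m) (ci m) y) = e1 ((s + t ()) * m) y := by
  rw [ev_pg, e1_eq]
  congr 2
  simp only [Pi.add_apply, Pi.smul_apply, smul_eq_mul]
  ring

end CoreP

theorem two (h : S_Leib) : S_Two := by
  intro Q _ ι _ _ lv g D U ξ q F y R s V m m' hg hc ⟨X, hX, hX0⟩ hF hE hy hR hT hV hB hO hbig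
  have hL : Long Q fun _ : Unit => V := fun _ => ⟨hV, by
    have e : (ci V)⁻¹ = R⁻¹ * (ci V / R)⁻¹ := by
      rw [inv_div, div_eq_mul_inv, ← mul_assoc, inv_mul_cancel₀ hR.ne', one_mul]
    rw [e]
    exact hT.mul hB.inv_mem⟩
  have hI : ¬Irr (Sm Q (zv fun _ : Unit => V)) (Rt Q 1) (g.prod g)
      (ssum U U ⊓ LinearMap.ker (fsum ξ (-ξ)))
      (UT.dg (pg (zv fun _ => s * m) (ci m) y, pg (zv fun _ => s * m') (ci m') y)) := fun hI => by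
    have h0 : ∃ Y ∈ ssum U U, fsum ξ (-ξ) Y ≠ 0 :=
      ⟨dg X 0, dg_mem_ssum.2 ⟨hX, zero_mem U⟩, by rwa [fsum_dg, map_zero, add_zero]⟩
    have a1 := hF.tens hF.cj
    have a2 := hE.tens hE.cj hF.bd hF.cj.bd
    have := h Q (ι ⊕ ι) (Sum.elim lv lv) (g.prod g) D (ssum U U) (fsum ξ (-ξ)) q
      _ (fun _ => V) _ (hg.prod hg) (hc.prod hc.neg) h0 a1 a2 hL
      (CoreP.dg_mem (pg_mem hg hy _ _) (pg_mem hg hy _ _)) hI
    simp only [ev_dg, UT.p1_dg, UT.p2_dg, CoreP.ev_pt] at this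
    exact this hbig
  obtain ⟨i, κ, h1, h2⟩ := not_irr_iff.1 hI
  refine ⟨i, κ, h1.anti bot_le, ?_⟩
  have h3 := h2 (Finsupp.single () i) (by simp)
  rw [Sm_congr (N := zv fun _ : Unit => V) (M := fun _ => R) fun _ => ⟨hB, hO⟩] at h3
  rw [← CoreP.coef h1 hg hy]
  exact (sr_iff KK_le_OO hR.ne').1 h3

theorem core (h1 : S_Loc) (h2 : S_Two) (h3 : S_Scal) : S_Core := by
  intro Q Z _ _ P x L ι _ _ lv g D U ξ q F y φ hW hg hc hX hF hE hy hI hφ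
  by_contra hn
  obtain ⟨M, N, T, hB, hd⟩ := h1 Q Z P x L φ hW (fun n => by rw [hφ]; exact hF.bd _) hn
  have hM : 0 < nr M :=
    (pow_pos ((Q_pow_pos 0).trans_le (P.hz 0)) 10).trans_le (hB.zN.trans hB.NM)
  have hZ : (0 : HR) < Z := Q_pos
  have hR : 0 < nr L / nr M := div_pos hW.pos hM
  have hT : Tiny Q (nr L / nr M)⁻¹ := by
    refine P.tiny.mono (inv_pos.2 hR).le (inv_anti₀ hZ ?_)
    rw [le_div_iff₀ hM, mul_comm]
    have := hW.hL 1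
    rw [pow_one] at this
    exact (mul_le_mul_of_nonneg_right hB.M2 hZ.le).trans this
  obtain ⟨i, κ, ha, hD⟩ := pigeon_adm (hg.prod hg) (n := ⊥) (p := fun _ : HZ × HZ => True)
    (s := fun i p κ => SR Q (OO Q) (nr L / nr M) i
      (ci p.1 ^ i * fn κ (dg (cf i y) 0) + ci p.2 ^ i * fn κ (dg 0 (cf i y))))
    (fun i => sig_SR hR.ne' i (by fun_prop))
    (hd.mono fun p _ ⟨s, V, a1, a2, a3, a4⟩ => ⟨trivial, h2 Q ι lv g D U ξ q F y _ s V p.1 p.2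
      hg hc hX hF hE hy hR hT a1 a2 a3 (by simpa only [hφ] using a4)⟩)
  have hirr := (irr_iff _ hW.pos.ne').1 hI i
  obtain ⟨_, ⟨X, hX1, Y, hY1, rfl⟩, hne⟩ := ha.ne
  by_cases c : fn κ (dg X 0) = 0
  · rw [dg_eq_in, map_add, in1_apply, c, zero_add] at hne
    obtain ⟨a, -, hA⟩ := hD.fub.exists
    exact hirr _ (CoreP.adm2 ha ⟨Y, hY1, hne⟩) (h3 Q Z P x L M N T i (fn κ (dg 0 (cf i y)))
      (ci a ^ i * fn κ (dg (cf i y) 0)) hW hB ha.pos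
      (hA.mono fun b _ hb => by rw [add_comm]; exact hb.2))
  · obtain ⟨b, -, hA⟩ := hD.fub'.exists
    exact hirr _ (CoreP.adm1 ha ⟨X, hX1, c⟩) (h3 Q Z P x L M N T i (fn κ (dg (cf i y) 0))
      (ci b ^ i * fn κ (dg 0 (cf i y))) hW hB ha.pos (hA.mono fun a _ hb => hb.2))

end Pool.Agent.P.MP_a14ce1_nt.Nil.Dc
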