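import Pool.Agent.P.MP_a14ce1_nt.Nil.Dec.St
import Pool.Agent.P.MP_a14ce1_nt.Nil.Std
import Pool.Agent.P.MP_a14ce1_nt.GI.Def0

/-!
From the decomposition in the ultrapower to the finitary axiom, and closure properties of the axiom.
-/

open Filter Finset

noncomputable section

namespace Pool.Agent.P.MP_a14ce1_nt.Nil

/-! ### Closure properties -/

theorem DecAx.anti {AA BB : Set (ℤ → ℂ)} (h : DecAx BB) (s : AA ⊆ BB) : DecAx AA := by
  obtain ⟨C, h⟩ := h
  refine ⟨C, fun ε ε0 K => ?_⟩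
  obtain ⟨W, Z0, h0, h⟩ := h ε ε0 K
  exact ⟨W, Z0, h0, fun Z z x L M1 M2 a b c d e f φ hφ => h Z z x L M1 M2 a b c d e f φ (s hφ)⟩

theorem Dec.conj {W MM x L φ} {b c : ℝ} (h : Dec W MM x L φ b c) :
    Dec W MM x L (fun n => (starRingEnd ℂ) (φ n)) b c := by
  obtain ⟨ψ, B, h1, h2, h3, h4⟩ := h
  refine ⟨fun n => (starRingEnd ℂ) (ψ n), B, fun n => by simpa using h1 n, h2,
    fun u v a1 a2 a3 => congrArg (starRingEnd ℂ) (h3 u v a1 a2 a3), fun α β ha hb => ?_⟩
  have k := h4 (fun u => (starRingEnd ℂ) (α u)) (fun m => (starRingEnd ℂ) (β m))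
    (fun u => by simpa using ha u) (fun m => by simpa using hb m)
  rw [← RCLike.norm_conj, map_sum] at k
  simpa only [map_mul, map_sub, Complex.conj_conj] using k

theorem DecAx.conj {AA : Set (ℤ → ℂ)} (h : DecAx AA) :
    DecAx ((fun φ n => (starRingEnd ℂ) (φ n)) '' AA) := by
  obtain ⟨C, h⟩ := h
  refine ⟨C, fun ε ε0 K => ?_⟩
  obtain ⟨W, Z0, h0, h⟩ := h ε ε0 K
  refine ⟨W, Z0, h0, fun Z z x L M1 M2 a b c d e f φ hφ => ?_⟩
  obtain ⟨φ, hφ, rfl⟩ := hφ
  exact (h Z z x L M1 M2 a b c d e f φ hφ).conj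

theorem DecAx.conj' {AA : Set (ℤ → ℂ)} (h : DecAx AA) :
    DecAx {φ | (fun n => (starRingEnd ℂ) (φ n)) ∈ AA} :=
  h.conj.anti fun φ hφ => ⟨_, hφ, funext fun n => Complex.conj_conj (φ n)⟩

theorem Dec.dvd {W W' MM x L φ} {b c : ℝ} (h : Dec W MM x L φ b c) (d : W ∣ W') :
    Dec W' MM x L φ b c :=
  let ⟨ψ, B, h1, h2, h3, h4⟩ := h
  ⟨ψ, B, h1, h2, fun u v a1 a2 a3 => h3 u v a1 ((Int.natCast_dvd_natCast.2 d).trans a2) a3, h4⟩

theorem DecAx.union {AA BB : Set (ℤ → ℂ)} (h : DecAx AA) (k : DecAx BB) : DecAx (AA ∪ BB) := by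
  obtain ⟨C, h⟩ := h
  obtain ⟨C', k⟩ := k
  refine ⟨max C C', fun ε ε0 K => ?_⟩
  obtain ⟨W, Z0, h0, h⟩ := h ε ε0 K
  obtain ⟨W', Z0', k0, k⟩ := k ε ε0 K
  refine ⟨W * W', Z0 + Z0' + 1, Nat.mul_pos h0 k0, fun Z z x L M1 M2 a b c d e f φ hφ => ?_⟩
  have z1 : 1 ≤ Z := by omega
  have p : ∀ D ≤ max C C', Z ^ D ≤ Z ^ max C C' := fun D hD => Nat.pow_le_pow_right z1 hD
  have p' : ∀ D ≤ max C C', (Z : ℝ) ^ D ≤ (Z : ℝ) ^ max C C' := fun D hD => by
    exact_mod_cast p D hD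
  rcases hφ with hφ | hφ
  · exact Dc.dec_mono ((h Z z x L M1 M2 (by omega) b ((p _ (le_max_left _ _)).trans c) d
      ((Nat.mul_le_mul_left _ (p _ (le_max_left _ _))).trans e) f φ hφ).dvd (dvd_mul_right _ _))
      (p' _ (le_max_left _ _)) le_rfl
  · exact Dc.dec_mono ((k Z z x L M1 M2 (by omega) b ((p _ (le_max_right _ _)).trans c) d
      ((Nat.mul_le_mul_left _ (p _ (le_max_right _ _))).trans e) f φ hφ).dvd (dvd_mul_left _ _))
      (p' _ (le_max_right _ _)) le_rfl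

theorem decAx_empty : DecAx ∅ :=
  ⟨0, fun _ _ _ => ⟨1, 0, one_pos, fun _ _ _ _ _ _ _ _ _ _ _ _ _ h => h.elim⟩⟩

theorem DecAx.biUnion {J : Type} (s : Finset J) {AA : J → Set (ℤ → ℂ)}
    (h : ∀ j ∈ s, DecAx (AA j)) : DecAx (⋃ j ∈ s, AA j) := by
  classical
  induction s using Finset.induction_on with
  | empty => simpa using decAx_empty
  | insert a s _ ih =>
    rw [Finset.set_biUnion_insert]
    exact (h a (mem_insert_self _ _)).union (ih fun j hj => h j (mem_insert_of_mem hj))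

namespace Dc

theorem dec_empty {W x L : ℕ} {φ : ℤ → ℂ} {b c : ℝ} (hb : 0 ≤ b) (hc : 0 ≤ c) :
    Dec W ∅ x L φ b c :=
  ⟨0, ∅, fun _ => by simp, by simpa using hb, fun _ _ _ _ _ => rfl, fun _ _ _ _ => by
    simpa [pairs] using hc⟩

/-! ### The transfer -/

theorem fin (h : S_Main) : S_Dec := by
  intro ι _ _ lv g D q L0 hg hq
  by_contra hc
  unfold DecAx at hc
  push Not at hc
  choose ε ε0 K hK using hc
  obtain ⟨Q, hQ⟩ : ∃ Q : ℕ → ℕ, ∀ n, Q n = K n + 2 + ⌈1 / ε n⌉₊ := ⟨_, fun _ => rfl⟩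
  choose Z z x L M1 M2 h1 h2 h3 h4 h5 h6 φ hφ hD using fun n =>
    hK n (Q n ^ n).factorial (Q n ^ n + 2) (Nat.factorial_pos _)
  choose F hF y hy hφ using hφ
  have Q2 : ∀ n, 2 ≤ Q n := fun n => by rw [hQ]; omega
  have z2 : ∀ n, 2 ≤ z n := fun n => le_add_self.trans (h1 n)
  have Z2 : ∀ n, 2 ≤ Z n := fun n => (z2 n).trans (h2 n)
  have pQ : ∀ C, ∀ᶠ n in UU, Q n ^ C ≤ Q n ^ n := fun C =>
    (ev_ge C).mono fun n hn => Nat.pow_le_pow_right (one_le_two.trans (Q2 n)) hn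
  have pZ : ∀ C, ∀ᶠ n in UU, Z n ^ C ≤ Z n ^ n := fun C =>
    (ev_ge C).mono fun n hn => Nat.pow_le_pow_right (one_le_two.trans (Z2 n)) hn
  have Zp : ∀ n, 0 < Z n ^ n := fun n => Nat.pow_pos (two_pos.trans_le (Z2 n))
  have m1 : ∀ n, 1 ≤ M2 n := fun n => by
    by_contra c
    refine hD n ?_
    rw [show roughs (z n) (M1 n) (M2 n) = ∅ from eq_empty_of_forall_notMem fun m hm => by
      have := (mem_roughs.1 hm).1
      have := Zp n
      have := h3 n
      omega]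
    exact dec_empty (by positivity) (mul_nonneg (ε0 n).le (Nat.cast_nonneg _))
  have L1 : ∀ n, 0 < L n := fun n => (Nat.mul_pos (m1 n) (Zp n)).trans_le (h5 n)
  let Q' : HR := st fun n => (Q n : ℝ)
  let Z' : HR := st fun n => (Z n : ℝ)
  have : Fact (2 ≤ Q') :=
    ⟨(st_le (x := fun _ => (2 : ℝ))).2 (Eventually.of_forall fun n => by exact_mod_cast Q2 n)⟩
  have : Fact (2 ≤ Z') :=
    ⟨(st_le (x := fun _ => (2 : ℝ))).2 (Eventually.of_forall fun n => by exact_mod_cast Z2 n)⟩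
  let P : Par Q' Z' :=
    { z := z, M1 := M1, M2 := M2, K := fun n => K n + 1, W := fun n => (Q n ^ n).factorial
      K1 := fun n => le_add_self
      hK := ⟨1, by
        rw [abs_of_nonneg (nr_nonneg _), nr_st, pow_one]
        exact st_le.2 (Eventually.of_forall fun n => Nat.cast_le.2 (by rw [hQ]; omega))⟩
      hz := fun C => by
        rw [nr_st]
        exact (st_le (x := fun n => (Q n : ℝ) ^ C)).2 ((pQ C).mono fun n hn => by
          exact_mod_cast hn.trans (le_self_add.trans (h1 n)))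
      zZ := by
        rw [nr_st]
        exact st_le.2 (Eventually.of_forall fun n => Nat.cast_le.2 (h2 n))
      hM1 := fun C => by
        rw [nr_st]
        exact (st_le (x := fun n => (Z n : ℝ) ^ C)).2 ((pZ C).mono fun n hn => by
          exact_mod_cast hn.trans (h3 n))
      one := by
        rw [nr_st]
        exact (st_le (x := fun _ => (1 : ℝ))).2 (Eventually.of_forall fun n => by
          exact_mod_cast m1 n)
      hM2 := Eventually.of_forall fun n =>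
        (h4 n).trans (Nat.pow_le_pow_right (one_le_two.trans (z2 n)) (Nat.le_succ _))
      hW := st_ind fun r r0 ⟨C, hC⟩ => by
        have a1 := (st_lt (x := fun _ => (0 : ℤ))).1 r0
        have a2 : ∀ᶠ n in UU, |((r n : ℤ) : ℝ)| ≤ (Q n : ℝ) ^ C :=
          (st_le (y := fun n => (Q n : ℝ) ^ C)).1 ((st_abs _).symm.le.trans hC)
        refine ⟨st fun n => ((Q n ^ n).factorial : ℤ) / r n, st_congr (A := HZ)
          (y := fun n => r n * (((Q n ^ n).factorial : ℤ) / r n)) ?_⟩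
        filter_upwards [a1, a2, pQ C] with n b1 b2 b3
        refine (Int.mul_ediv_cancel' ?_).symm
        obtain ⟨k, hk⟩ := Int.eq_ofNat_of_zero_le b1.le
        rw [hk] at b1 b2 ⊢
        rw [Int.cast_natCast, Nat.abs_cast] at b2
        exact Int.natCast_dvd_natCast.2 (Nat.dvd_factorial (by exact_mod_cast b1)
          (le_trans (by exact_mod_cast b2) b3)) }
  have win : P.Win (st x) (st L) := ⟨⟨1, by
      rw [nr_st, nr_st, pow_one]
      refine (st_abs fun n => (x n : ℝ) / L n).le.trans (st_le.2 (Eventually.of_forall fun n => ?_))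
      rw [abs_of_nonneg (by positivity), div_le_iff₀ (by exact_mod_cast L1 n)]
      exact_mod_cast h6 n⟩, fun C => by
    rw [nr_st, nr_st]
    exact (st_le (x := fun n => (M2 n : ℝ) * (Z n : ℝ) ^ C)).2 ((pZ C).mono fun n hn => by
      exact_mod_cast (Nat.mul_le_mul_left _ hn).trans (h5 n))⟩
  obtain ⟨Y, hY, gY⟩ := exists_germs (Q := Q') hg (Eventually.of_forall hy)
  have key := h Q' Z' P (st x) (st L) ι lv (g.star Q') D _ (app F) Y (st φ) win hg.star
    (NiceR.nice (q := fun _ => q) (L := fun _ => L0) (Eventually.of_forall fun n => ⟨hq, hF n⟩)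
      (real_OO _) (real_OO _)) hY (st_ind fun t => by
        have e : e1 (st t) Y = st fun n => ev (fun _ => (t n : ℝ)) (y n) :=
          gY.ev fun n _ => (t n : ℝ)
        rw [ap_st, e, app_st]
        exact congrArg st (funext fun n => hφ n (t n)))
  obtain ⟨C, hC⟩ := key (st ε) ⟨1, by
      rw [st_abs, pow_one]
      refine (st_le (x := fun _ => (1 : ℝ)) (y := fun n => |ε n| * Q n)).2
        (Eventually.of_forall fun n => ?_)
      rw [abs_of_pos (ε0 n), mul_comm, ← div_le_iff₀ (ε0 n)]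
      exact (Nat.le_ceil _).trans (Nat.cast_le.2 (by rw [hQ]; omega))⟩
    ((st_lt (x := fun _ => (0 : ℝ))).2 (Eventually.of_forall ε0))
  rw [nr_st] at hC
  obtain ⟨n, a, b⟩ := (((dn_st (b := fun n => (Z n : ℝ) ^ C) (c := fun n => ε n * L n)).1 hC).and
    (pZ C)).exists
  exact hD n (dec_mono a (by exact_mod_cast b) le_rfl)

theorem decAx_At (h : S_Dec) (T : GI.Ty) (k : ℕ) : DecAx {ψ | T.At k ψ} :=
  (h T.ι T.lv T.g T.D T.q T.L T.fil T.pos).anti fun _ ⟨F, a, _, b⟩ => ⟨F, a, b⟩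

end Dc

end Pool.Agent.P.MP_a14ce1_nt.Nil
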