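import Pool.Agent.P.MP_a14ce1_nt.Nil.Dec.St

/-!
Gluing decompositions in the ultrapower: along residue classes and along shorter windows.
-/

open Filter Finset

set_option linter.unusedSectionVars false

noncomputable section

namespace Pool.Agent.P.MP_a14ce1_nt.Nil.Dc

/-- saturation, written for sequences -/
theorem sat_ev {S : Type} {π : ℕ → ℕ → S → Prop}
    (hm : ∀ i j, i ≤ j → ∀ᶠ n in UU, ∀ s, π i n s → π j n s)
    (h : ∀ x : ℕ → S, ∃ j, ∀ᶠ n in UU, π j n (x n)) : ∃ j, ∀ᶠ n in UU, ∀ s, π j n s := by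
  have key : ∀ j (x : ℕ → S), (∀ᶠ n in UU, π j n (rep (st x : Ns S) n)) ↔
      ∀ᶠ n in UU, π j n (x n) := fun j x =>
    eventually_congr ((rep_st (A := Ns S) x).mono fun n hn => by rw [hn])
  obtain ⟨j, hj⟩ := sat_mono (A := Ns S) (IntP.const True)
    (P := fun j a => ∀ᶠ n in UU, π j n (rep a n)) (fun j => ⟨π j, key j⟩)
    (fun i j hij a ha => by
      filter_upwards [hm i j hij, ha] with n h1 h2 using h1 _ h2)
    (fun a _ => h (rep a))
  exact ⟨j, ev_forall.2 fun x => (key j x).1 (hj _ trivial)⟩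

section

variable {Q Z : HR} [Fact (2 ≤ Q)] [Fact (2 ≤ Z)] {P : Par Q Z}

theorem glue_tot (h0 : S_Tot) : ∃ K0 : ℝ, 0 < K0 ∧ ∀ (Q Z : HR) [Fact (2 ≤ Q)] [Fact (2 ≤ Z)]
    (P : Par Q Z) (x : HN) (L : ℕ → ℕ), P.Win x (st L) →
    ∀ᶠ n in UU, ∀ x' : ℕ, ((pairs (P.MM n) x' (L n)).card : ℝ) ≤ K0 * P.K n * L n := by
  obtain ⟨K0, hK0, h⟩ := h0
  refine ⟨K0, hK0, fun Q Z hQ hZ P x L hw => ?_⟩
  have h1 : (st fun _ => (2 : ℝ) : HR) ≤ st fun n => (P.z n : ℝ) := by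
    have := hQ.out.trans ((pow_one Q).symm.le.trans (P.hz 1))
    rwa [nr_st] at this
  have h2 : (st fun n => (P.z n : ℝ) ^ 10 : HR) ≤ st fun n => (P.M1 n : ℝ) := by
    have := (pow_le_pow_left₀ (nr_nonneg _) P.zZ 10).trans (P.hM1 10)
    rwa [nr_st, nr_st] at this
  have h3 : (st fun n => (P.M2 n : ℝ) : HR) ≤ st fun n => (L n : ℝ) := by
    have := hw.hL 0
    rwa [pow_zero, mul_one, nr_st, nr_st] at this
  filter_upwards [st_le.1 h1, st_le.1 h2, st_le.1 h3, P.hM2] with n a1 a2 a3 a4 x'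
  exact h _ _ _ _ _ _ (by exact_mod_cast a1) (by exact_mod_cast a2) a4 (P.K1 n)
    (by exact_mod_cast a3)

theorem glue_K (P : Par Q Z) {K0 : ℝ} (hK0 : 0 < K0) :
    (st fun n => K0 * P.K n : HR) ∈ OO Q ∧ (0 : HR) < st fun n => K0 * P.K n := by
  refine ⟨?_, st_lt.2 (Eventually.of_forall fun n => mul_pos hK0 (by exact_mod_cast P.K1 n))⟩
  have := mul_mem (real_OO (Q := Q) K0) P.hK
  rwa [nr_st] at this

end

theorem gcls (h0 : S_Tot) (h : S_Cls) : S_GCls := by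
  obtain ⟨K0, hK0, ht⟩ := glue_tot h0
  intro Q Z hQ hZ P x L φ q hw hq0 hqO H δ hδ δ0
  induction x using st_ind with | _ x
  induction L using st_ind with | _ L
  induction φ using st_ind with | _ φ
  induction q using st_ind with | _ q
  induction δ using st_ind with | _ δ
  obtain ⟨zz, hzz⟩ : ∃ zz : ℕ → ℝ, st zz = Z := ⟨_, st_rep Z⟩
  have hZC : ∀ C : ℕ, Z ^ C = st fun n => zz n ^ C := fun C => by rw [← hzz]; rfl
  have hz1 : ∀ᶠ n in UU, 1 ≤ zz n := by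
    have := one_le_Q Z
    rw [← hzz] at this
    exact st_le.1 this
  obtain ⟨hKO, hKp⟩ := glue_K P hK0
  have hqp : (0 : HR) < ci (st q) := ci_pos.2 hq0
  have hb1 : Big Q (st δ / (2 * ci (st q) ^ 2) : HR) :=
    hδ.div (mul_mem (ofNat_mem _ 2) (pow_mem hqO 2)) (by positivity)
  have hp1 : (0 : HR) < st δ / (2 * ci (st q) ^ 2) := by positivity
  have hb2 : Big Q (st δ / (2 * st fun n => K0 * P.K n) : HR) :=
    hδ.div (mul_mem (ofNat_mem _ 2) hKO) (by positivity)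
  have hp2 : (0 : HR) < st δ / (2 * st fun n => K0 * P.K n) := by positivity
  obtain ⟨C, hC⟩ := sat_ev (π := fun C n (a : ℤ) => ∃ φ' : ℤ → ℂ,
      Dec (P.W n) (P.MM n) (x n) (L n) φ' (zz n ^ C) (δ n / (2 * (q n : ℝ) ^ 2) * L n) ∧
      ∀ t : ℤ, (x n : ℤ) ≤ t → t < (x n : ℤ) + L n → q n ∣ t - a →
        ‖φ n t - φ' t‖ ≤ δ n / (2 * (K0 * P.K n)))
    (fun i j hij => hz1.mono fun n hn a ⟨φ', h1, h2⟩ =>
      ⟨φ', dec_mono h1 (pow_le_pow_right₀ hn hij) le_rfl, h2⟩)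
    (fun a => by
      obtain ⟨φ', hD, hT⟩ := H (st a)
      induction φ' using st_ind with | _ φ'
      obtain ⟨C, hC⟩ := hD _ hb1 hp1
      rw [hZC, nr_st] at hC
      have hC' := dn_st.1 hC
      have hT' : ∀ᶠ n in UU, ∀ t : ℤ, (x n : ℤ) ≤ t → t < (x n : ℤ) + L n → q n ∣ t - a n →
          ‖φ n t - φ' n t‖ ≤ δ n / (2 * (K0 * P.K n)) := by
        refine ev_forall.2 fun t => ?_
        by_cases hc : ∀ᶠ n in UU, (x n : ℤ) ≤ t n ∧ t n < (x n : ℤ) + L n ∧ q n ∣ t n - a n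
        · obtain ⟨c, hc3⟩ := ev_exists.1 (hc.mono fun n hn => hn.2.2)
          have h1 := hT (st t) (st_le.2 (hc.mono fun n hn => hn.1))
            (st_lt.2 (hc.mono fun n hn => hn.2.1)) ⟨st c, st_congr (A := HZ) hc3⟩
          have h2 := (Tiny.lt' h1 hb2 hp2.le).le
          rw [ap_st, ap_st] at h2
          exact (st_le.1 h2).mono fun n hn _ _ _ => hn
        · exact (ev_not.2 hc).mono fun n hn h1 h2 h3 => (hn ⟨h1, h2, h3⟩).elim
      exact ⟨C, (hC'.and hT').mono fun n hn => ⟨φ' n, hn.1, hn.2⟩⟩)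
  obtain ⟨D, hD⟩ := P.OO_le hqO
  rw [abs_of_pos hqp, hZC] at hD
  obtain ⟨c, hc⟩ := P.hW _ hq0 hqO
  induction c using st_ind with | _ c
  refine ⟨D + C, ?_⟩
  rw [hZC, nr_st]
  refine dn_st.2 ?_
  filter_upwards [hC, st_le.1 hD, (NS.eq_iff (A := HZ) _ _).1 hc, st_lt.1 hq0, st_lt.1 δ0, P.pos_MM,
    ht Q Z P _ L hw, hz1] with n a1 a2 a3 a4 a5 a6 a7 a8
  have a2' : (q n : ℝ) ≤ zz n ^ D := a2
  have a3' : (P.W n : ℤ) = q n * c n := a3
  have a4' : 0 < q n := a4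
  have a5' : 0 < δ n := a5
  obtain ⟨r, hr⟩ := Int.eq_ofNat_of_zero_le a4'.le
  have hK : (0 : ℝ) < K0 * P.K n := mul_pos hK0 (by exact_mod_cast P.K1 n)
  rw [hr] at a1 a2' a3' a4'
  have hr0 : 0 < r := by exact_mod_cast a4'
  have hr1 : (0 : ℝ) < r := by exact_mod_cast hr0
  have := h (P.W n) (P.MM n) (x n) (L n) r (φ n) _ _ _ a6 hr0
    (Int.natCast_dvd_natCast.1 ⟨c n, a3'⟩) (by positivity) a1
  refine dec_mono this ?_ ?_
  · rw [pow_add]
    exact mul_le_mul_of_nonneg_right (by exact_mod_cast a2') (by positivity)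
  · have b1 := mul_le_mul_of_nonneg_left (a7 (x n))
      (show 0 ≤ δ n / (2 * (K0 * P.K n)) by positivity)
    have b2 : δ n / (2 * (K0 * P.K n)) * (K0 * P.K n * L n) = δ n * L n / 2 := by
      generalize K0 * (P.K n : ℝ) = k at hK
      field_simp
    have b3 : (r : ℝ) ^ 2 * (δ n / (2 * (((r : ℕ) : ℤ) : ℝ) ^ 2) * L n) = δ n * L n / 2 := by
      push_cast
      field_simp
    change _ ≤ δ n * (L n : ℝ)
    linarith

theorem gwin (h0 : S_Tot) (h : S_Win) : S_GWin := by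
  obtain ⟨K0, hK0, ht⟩ := glue_tot h0
  intro Q Z hQ hZ P x L L' φ hw hL' hLO hti hφ H δ hδ δ0
  have hw' : P.Win x L' := hw.sub hL' hLO le_self_add
  have hLp := hw.pos
  have hLp' := hw'.pos
  obtain ⟨hKO, hKp⟩ := glue_K P hK0
  have hsm : (st fun n => K0 * P.K n : HR) * nr L' ≤ δ / 2 * nr L := by
    have := (Tiny.lt' (hti.mul' hKO) hδ.half (by positivity)).le
    rwa [← mul_div_assoc, div_le_iff₀ hLp] at this
  obtain ⟨D, hD⟩ := hLO
  rw [abs_of_pos (div_pos hLp hLp')] at hD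
  induction x using st_ind with | _ x
  induction L using st_ind with | _ L
  induction L' using st_ind with | _ L'
  induction φ using st_ind with | _ φ
  induction δ using st_ind with | _ δ
  obtain ⟨zz, hzz⟩ : ∃ zz : ℕ → ℝ, st zz = Z := ⟨_, st_rep Z⟩
  have hZC : ∀ C : ℕ, Z ^ C = st fun n => zz n ^ C := fun C => by rw [← hzz]; rfl
  have hz2 : ∀ᶠ n in UU, 2 ≤ zz n := by
    have := hZ.out
    rw [← hzz] at this
    exact st_le.1 this
  obtain ⟨C, hC⟩ := sat_ev (π := fun C n (x' : ℕ) => x n ≤ x' → x' + L' n ≤ x n + L n →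
      Dec (P.W n) (P.MM n) x' (L' n) (φ n) (zz n ^ C) (δ n / 2 * L' n))
    (fun i j hij => hz2.mono fun n hn a h1 h2 h3 =>
      dec_mono (h1 h2 h3) (pow_le_pow_right₀ (one_le_two.trans hn) hij) le_rfl)
    (fun x' => by
      by_cases hc : ∀ᶠ n in UU, x n ≤ x' n ∧ x' n + L' n ≤ x n + L n
      · obtain ⟨C, hC⟩ := H (st x') (st_le.2 (hc.mono fun n hn => hn.1))
          (st_le.2 (hc.mono fun n hn => hn.2)) _ hδ.half (by positivity)
        rw [hZC, nr_st] at hC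
        exact ⟨C, (dn_st.1 hC).mono fun n hn _ _ => hn⟩
      · exact ⟨0, (ev_not.2 hc).mono fun n hn h1 h2 => (hn ⟨h1, h2⟩).elim⟩)
  refine ⟨D + 1 + (C + 1), ?_⟩
  rw [hZC, nr_st]
  refine dn_st.2 ?_
  rw [hZC, nr_st, nr_st] at hD
  rw [nr_st, nr_st] at hsm
  filter_upwards [hC, st_le.1 hD, st_le.1 hsm, st_lt.1 hL', st_lt.1 δ0, P.pos_MM,
    ht Q Z P _ L' hw', hz2, bz_st.1 hφ] with n a1 a2 a3 a4 a5 a6 a7 a8 a9
  have a2' : (L n : ℝ) / L' n ≤ zz n ^ D := a2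
  have a3' : K0 * P.K n * L' n ≤ δ n / 2 * L n := a3
  have a4' : 0 < L' n := a4
  have a5' : 0 < δ n := a5
  have hr1 : (0 : ℝ) < L' n := by exact_mod_cast a4'
  have hz0 : 0 < zz n := two_pos.trans_le a8
  have := h (P.W n) (P.MM n) (x n) (L n) (L' n) (φ n) _ _ _ a6 a4' a9 (by positivity)
    (by positivity) a1 a7
  have hpw : ∀ k : ℕ, zz n ^ k + 1 ≤ zz n ^ (k + 1) := fun k => by
    have := one_le_pow₀ (n := k) (one_le_two.trans a8)
    rw [pow_succ]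
    nlinarith
  refine dec_mono this ?_ ?_
  · rw [pow_add]
    exact mul_le_mul ((add_le_add_left a2' 1).trans (hpw D)) (hpw C) (by positivity)
      (by positivity)
  · have b2 : (L n : ℝ) / L' n * (δ n / 2 * L' n) = δ n / 2 * L n := by field_simp
    change _ ≤ δ n * (L n : ℝ)
    linarith

end Pool.Agent.P.MP_a14ce1_nt.Nil.Dc
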