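import Pool.Agent.P.MP_a14ce1_nt.Nil.Dec.St
import Pool.Agent.P.MP_a14ce1_nt.Nil.Four

/-!
The irrational case of the decomposition: the major part is the mean value.
-/

open Filter Finset

set_option linter.unusedSectionVars false

noncomputable section

namespace Pool.Agent.P.MP_a14ce1_nt.Nil.Dc

namespace Irr

variable {A S : Type} [NS A S] {ι : Type} [Fintype ι] [DecidableEq ι] {lv : ι → ℕ}
  {Q : HR} [Fact (2 ≤ Q)]

/-- A number below `k δ` for all big `δ` is tiny. -/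
theorem tiny_of_le {z : HC} (k : ℕ) (h : ∀ δ, Big Q δ → nm z ≤ k * |δ|) : TinyC Q z := by
  intro hb
  have hk : (0 : HR) < (k : HR) + 1 := by positivity
  have h1 : Big Q (nm z / (k + 1)) :=
    Big.div hb (add_mem (natCast_mem _ k) (one_mem _)) hk.ne'
  have h2 := h _ h1
  have h0 : 0 < nm z := Big.pos hb (nm_nonneg z)
  rw [abs_of_pos (div_pos h0 hk), ← mul_div_assoc, le_div_iff₀ hk] at h2
  linarith

/-- The expansion along a direction, averaged against a test. -/
theorem fej {T : Ns (Finset ℤ)} {c : HZ → HC} (hc : IntF c) {F : UT lv HR → HC}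
    (hF : IntF F) {Φ : HZ → UT lv HR → HC} (hΦ : IntF fun z : HZ × UT lv HR => Φ z.1 z.2)
    {T' : Ns (Finset S)} {w : A → HC} (hw : IntF w) {x : A → UT lv HR} (hx : IntF x) {t : HC}
    {δ : HR} (hb : ∀ a, Mem a T' → nm (w a) ≤ 1)
    (h : ∀ a, Mem a T' → nm (F (x a) - t * Ex T fun m : HZ => c m * Φ m (x a)) ≤ |δ|) :
    nm ((Ex T' fun a => w a * F (x a)) -
      t * Ex T fun m : HZ => c m * Ex T' fun a => w a * Φ m (x a)) ≤ |δ| := by
  have h0 : IntF fun z : A × HZ => Φ z.2 (x z.1) :=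
    hΦ.comp (f := fun z : A × HZ => (z.2, x z.1)) (by fun_prop)
  have h1 : IntF fun z : A × HZ => c z.2 * (w z.1 * Φ z.2 (x z.1)) :=
    (hc.comp (by fun_prop)).mul ((hw.comp (by fun_prop)).mul h0)
  have h2 : IntF fun a : A => Ex T fun m : HZ => c m * (w a * Φ m (x a)) :=
    IntF.ex (IntF.const _) h1
  have h3 : ∀ m, IntF fun a : A => w a * Φ m (x a) := fun m =>
    hw.mul (hΦ.comp (f := fun a : A => (m, x a)) (by fun_prop))
  have h4 : ∀ a, IntF fun m : HZ => c m * Φ m (x a) := fun a =>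
    hc.mul (hΦ.comp (f := fun m : HZ => (m, x a)) (by fun_prop))
  have e : (Ex T fun m : HZ => c m * Ex T' fun a => w a * Φ m (x a)) =
      Ex T' fun a => Ex T fun m : HZ => c m * (w a * Φ m (x a)) := by
    rw [Ex_comm h1]
    congr 1
    exact funext fun m => (Ex_mul_left (h3 m) (c m)).symm
  rw [e, ← Ex_mul_left h2 t, ← Ex_sub (hw.mul (hF.comp hx)) ((IntF.const t).mul h2)]
  refine nm_Ex_le ((hw.mul (hF.comp hx)).sub ((IntF.const t).mul h2)) (abs_nonneg δ)
    fun a ha => ?_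
  have e2 : (Ex T fun m : HZ => c m * (w a * Φ m (x a))) =
      w a * Ex T fun m : HZ => c m * Φ m (x a) := by
    rw [← Ex_mul_left (h4 a)]
    congr 1
    exact funext fun m => mul_left_comm _ _ _
  rw [e2, mul_left_comm, ← mul_sub, nm_mul]
  exact (mul_le_of_le_one_left (nm_nonneg _) (hb a ha)).trans (h a ha)

end Irr

theorem equiT : S_Equi := by
  intro Q _ ι _ _ lv g q A S B S' _ _ T T' w x w' x' hw hx hw' hx' hT hT' hm hk F hF
  suffices h : ∀ (d : ℕ) (n : Submodule HR (Matrix ι ι HR)) (F : UT lv HR → HC), g.Idl n →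
      Module.finrank HR (g.r 0) - Module.finrank HR n = d → Nice Q q g.GG F →
      Eqv Q g.GG n 0 F →
      TinyC Q ((Ex T fun a => w a * F (x a)) - Ex T' fun b => w' b * F (x' b)) from
    h _ ⊥ F ⟨fun φ X hX => by
        rw [Submodule.mem_bot] at hX ⊢; rw [hX]; exact Matrix.map_zero _ (map_zero φ),
      bot_le, fun X _ Y hY => by rw [Submodule.mem_bot] at hY ⊢; simp [hY]⟩ rfl hF eqv_bot
  intro d
  induction d using Nat.strong_induction_on with | _ d ih
  intro n F hn hd hF he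
  have hFi := hF.int
  by_cases h0 : g.r 0 ≤ n
  · have k : ∀ z ∈ g.GG, TinyC Q (F z - F 1) := fun z hz => by
      have := he z (h0 hz) 1 (one_mem _)
      rwa [mul_one, LinearMap.zero_apply, ee_zero, one_mul] at this
    have k1 := tinyC_Ex (Q := Q) (T := T) (f := fun a => w a * F (x a)) (g := fun a => w a * F 1)
      (hw.mul (hFi.comp hx)) (hw.mul (IntF.const _)) fun a ha => by
        rw [← mul_sub]
        exact (k _ (hT a ha).2).mul' (nm_OO (hT a ha).1)
    have k2 := tinyC_Ex (Q := Q) (T := T') (f := fun a => w' a * F (x' a))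
      (g := fun a => w' a * F 1) (hw'.mul (hFi.comp hx')) (hw'.mul (IntF.const _)) fun a ha => by
        rw [← mul_sub]
        exact (k _ (hT' a ha).2).mul' (nm_OO (hT' a ha).1)
    rw [Ex_mul_right hw] at k1
    rw [Ex_mul_right hw'] at k2
    have k3 := hm.mul (nm_OO (hF.bd 1))
    rw [sub_mul] at k3
    exact (k1.trans k3).trans k2.symm
  have hg0 : g.Idl (g.r 0) := ⟨g.rat 0, le_rfl, g.lie0.br⟩
  obtain ⟨W, -, hWn, hW⟩ := exists_dir hF.lvl hn hg0 h0
  have hc : Cen g n 0 := hn.cen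
  obtain ⟨L, hL⟩ := exists_huge (Q := Q)
  have hΦ : IntF fun z : HZ × UT lv HR => fcomp L W z.1 F z.2 :=
    intF_fcomp L W (Φ := fun _ => F) (by fun_prop) (by fun_prop) (by fun_prop)
  have hA : IntF fun m : HZ => Ex T fun a => w a * fcomp L W m F (x a) :=
    IntF.ex (IntF.const _) ((hw.comp (f := fun z : HZ × A => z.2) (by fun_prop)).mul
      (hΦ.comp (f := fun z : HZ × A => (z.1, x z.2)) (by fun_prop)))
  have hA' : IntF fun m : HZ => Ex T' fun b => w' b * fcomp L W m F (x' b) :=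
    IntF.ex (IntF.const _) ((hw'.comp (f := fun z : HZ × B => z.2) (by fun_prop)).mul
      (hΦ.comp (f := fun z : HZ × B => (z.1, x' z.2)) (by fun_prop)))
  have step : ∀ m : HZ, ci m ∈ OO Q →
      TinyC Q ((Ex T fun a => w a * fcomp L W m F (x a))
        - Ex T' fun b => w' b * fcomp L W m F (x' b)) := fun m hm => by
    have hN1 := fcomp_nice hW hL.1 m hF
    by_cases hm0 : m = 0
    · obtain ⟨c1, c2⟩ := fcomp_eqv (ξ' := 0) hW hc hL hm hF he RatF.zero (fun _ _ => rfl)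
        (by rw [hm0, map_zero]; rfl)
      have hlt : n < n ⊔ Submodule.span HR {W} :=
        left_lt_sup.2 fun h => hWn (h (Submodule.mem_span_singleton_self W))
      have d1 := Submodule.finrank_lt_finrank_of_lt hlt
      have d2 := Submodule.finrank_mono c1.idl.le
      exact ih _ (by omega) _ _ c1.idl rfl hN1 c2
    · obtain ⟨ξ', x1, x2, x3⟩ := exists_ext hn.rat RatF.zero hW.ent hWn (KK_of_ZZ (ci_mem m) hm)
      obtain ⟨c1, c2⟩ := fcomp_eqv hW hc hL hm hF he x1 x2 x3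
      have hξ : ∃ X ∈ n ⊔ Submodule.span HR {W}, ξ' X ≠ 0 :=
        ⟨W, Submodule.mem_sup_right (Submodule.mem_span_singleton_self W), by
          rw [x3, ← map_zero ci]
          exact ci_inj.ne hm0⟩
      obtain ⟨k1, k2⟩ := hk _ _ _ c1 hξ hN1 c2
      exact k1.sub k2
  refine Irr.tiny_of_le 3 fun δ hδ => ?_
  obtain ⟨R, c, t1, t2, -, -, t3, t4⟩ := fejerG (A := HZ) hW hc hL (p := fun _ => True)
    (IntP.const _) (Φ := fun _ => F) (by fun_prop) (fun _ _ => ⟨hF, he⟩) hδ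
  have k1 := Irr.fej t2 hFi hΦ (T' := T) hw hx (fun a ha => (hT a ha).1)
    fun a ha => t4 0 trivial _ (hT a ha).2
  have k2 := Irr.fej t2 hFi hΦ (T' := T') hw' hx' (fun a ha => (hT' a ha).1)
    fun a ha => t4 0 trivial _ (hT' a ha).2
  have k3 := tinyC_Ex (T := R) (t2.mul hA) (t2.mul hA') fun m hm => by
    rw [← mul_sub]
    exact (step m (t3 m hm).1).mul' (nm_OO (t3 m hm).2)
  have k4 := k3.mul' (z := cr (cd R)) (by rw [nm_cr]; exact abs_mem_OO.2 t1)
  have k5 := (le_abs_self _).trans (tiny_iff_le.1 k4 δ hδ)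
  rw [mul_sub] at k5
  rw [nm_sub_comm] at k2
  refine (nm_sub_tri _ _ _).trans
    ((add_le_add k1 ((nm_sub_tri _ _ _).trans (add_le_add k5 k2))).trans ?_)
  push_cast
  linarith

theorem irr (h1 : S_T1) (h2 : S_T2) (h3 : S_Core) (h4 : S_Equi) (h5 : S_Leib) : S_Irr := by
  intro Q Z _ _ P x L ι _ _ lv g D q F y φ hW hg hF hy hi hφ
  have hFi := hF.int
  have hL := hW.long
  have hb : cd (box fun _ : Unit => nz L) ≠ 0 := (cd_box_pos fun l => (hL l).1).ne'
  have hx' : IntF fun t : Unit → HZ => ev (zv t) y := by fun_prop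
  refine h1 Q Z P x L φ (Ex (box fun _ : Unit => nz L) fun t : Unit → HZ => F (ev (zv t) y)) hW
    (fun n => by rw [hφ]; exact hF.bd _)
    (nm_Ex_le (hFi.comp hx') zero_le_one fun _ _ => hF.bd _) fun hB α β hα hβ => ?_
  have hw : IntF fun p : HN × HN => wt α β p := intF_wt α β IntF.id
  have hx : IntF fun p : HN × HN => e1 (pt p) y := intF_e1 y (intF_pt IntF.id)
  have hw1 : ∀ p : HN × HN, nm (wt α β p) ≤ 1 := fun p => nm_mul_le_one (hβ _) (hα _)
  have hi' : ∀ n, Irr (Sm Q (zv fun _ : Unit => nz L)) (Rt Q 1) g n y := fun n =>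
    (irr_iff KK_le_OO hW.pos.ne').2 fun i η ha ⟨o, ho, hr⟩ =>
      (irr_iff _ hW.pos.ne').1 hi i η
        ⟨ha.pos, ha.rat, ha.ne, ha.nxt, ha.br, fun X hX => ha.idl X ⟨hX.1, (bot_le : ⊥ ≤ n) hX.2⟩⟩
        ⟨o, P.OO_le ho, hr⟩
  have k := h4 Q ι lv g q (HN × HN) (ℕ × ℕ) (Unit → HZ) (Unit → ℤ) (P.PR x L)
    (box fun _ : Unit => nz L) (fun p => wt α β p) (fun p => e1 (pt p) y)
    (fun _ => Ex (P.PR x L) fun p : HN × HN => wt α β p) (fun t => ev (zv t) y)
    hw hx (IntF.const _) hx' (fun p _ => ⟨hw1 p, ev_mem hg hy _⟩)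
    (fun t _ => ⟨nm_Ex_le hw zero_le_one fun p _ => hw1 p, ev_mem hg hy _⟩)
    (TinyC.of_eq (Ex_const hb _).symm) (fun U ξ F' hc hξ hF' he => ?_) F hF
  · rw [Ex_mul_left (hFi.comp hx'), ← Ex_mul_right hw,
      ← Ex_sub (hw.mul (hFi.comp hx)) (hw.mul (IntF.const _))] at k
    simpa only [hφ, mul_sub] using k
  · have hFi' := hF'.int
    obtain ⟨φ', hφ'⟩ := IntF.eq_ap (f := fun n : HZ => F' (e1 n y))
      (hFi'.comp (intF_e1 y IntF.id))
    have e : ∀ n : HZ, ap φ' n = F' (e1 n y) := fun n => (congrFun hφ' n).symm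
    refine ⟨?_, ?_⟩
    · have := h2 Q Z P x L φ' hW hB
        (h3 Q Z P x L ι lv g D U ξ q F' y φ' hW hg hc hξ hF' he hy hi e) α β hα hβ
      simpa only [e] using this
    · rw [Ex_mul_left (hFi'.comp hx')]
      exact (h5 Q ι lv g D U ξ q F' _ y hg hc hξ hF' he hL hy (hi' _)).mul'
        (nm_OO (nm_Ex_le hw zero_le_one fun p _ => hw1 p))

end Pool.Agent.P.MP_a14ce1_nt.Nil.Dc
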