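import Pool.Agent.P.MP_a14ce1_nt.Nil.Dec.St

/-!
The localisation step in the ultrapower.
-/

open Filter Finset
open scoped BigOperators

set_option linter.unusedSectionVars false

noncomputable section

namespace Pool.Agent.P.MP_a14ce1_nt.Nil.Dc

namespace Lc

theorem nm_box (U : ℤ) (hU : 0 < U) (f : ℤ → ℂ) :
    ‖𝔼 t ∈ BoxF.bx (fun _ : Unit => U), f (t ())‖ = ‖∑ t ∈ Ico (0 : ℤ) U, f t‖ / U := by
  have e : 𝔼 t ∈ BoxF.bx (fun _ : Unit => U), f (t ()) = 𝔼 t ∈ Ico (0 : ℤ) U, f t :=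
    expect_nbij' (fun t => t ()) (fun s _ => s) (fun t ht => by simpa using BoxF.mem_bx.1 ht ())
      (fun s hs => BoxF.mem_bx.2 fun _ => by simpa using hs) (fun _ _ => rfl) (fun _ _ => rfl)
      (fun _ _ => rfl)
  rw [e, expect_eq_sum_div_card, norm_div, Complex.norm_natCast, Int.card_Ico, sub_zero]
  congr 1
  exact_mod_cast Int.toNat_of_nonneg hU.le

theorem sum_le (U : ℤ) (hU : 0 < U) (f : ℤ → ℂ) (hf : ∀ t, ‖f t‖ ≤ 1) :
    ‖∑ t ∈ Ico (0 : ℤ) U, f t‖ ≤ U := by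
  refine (norm_sum_le _ _).trans ((sum_le_card_nsmul _ _ _ fun t _ => hf t).trans ?_)
  rw [nsmul_eq_mul, mul_one, Int.card_Ico, sub_zero]
  exact_mod_cast (Int.toNat_of_nonneg hU.le).le

end Lc

theorem loc (h : S_CS) : S_Loc := by
  intro Q Z _ _ P x L φ hW hφ hT
  obtain ⟨C0, hC0, hcs⟩ := h
  simp only [Par.TG, not_forall] at hT
  obtain ⟨δ, hδ, hδ0, hT⟩ := hT
  induction x using st_ind with | _ x
  induction L using st_ind with | _ L
  induction φ using st_ind with | _ φ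
  induction δ using st_ind with | _ δ
  have hL0 := hW.pos
  have hLn : ∀ᶠ n in UU, 0 < L n := st_lt.1 (nr_pos.1 hL0)
  have hz2 : (2 : HR) ≤ nr (st P.z) := (Fact.out : 2 ≤ Q).trans (by simpa using P.hz 1)
  have hzO : nr (st P.z) ∈ OO Z :=
    OO_of_abs_le Q_mem (by rw [abs_of_nonneg (nr_nonneg _)]; exact P.zZ)
  set Y : ℕ → ℕ := fun n => x n / L n + 1 with hY
  have hYO : nr (st Y) ∈ OO Z := by
    refine OO_of_abs_le (add_mem hW.hx (one_mem _)) ?_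
    rw [abs_of_nonneg (nr_nonneg _), nr_st, nr_st, nr_st]
    refine le_of_forall fun n => ?_
    change ((x n / L n + 1 : ℕ) : ℝ) ≤ (x n : ℝ) / L n + 1
    rw [Nat.cast_add, Nat.cast_one]
    exact add_le_add_left Nat.cast_div_le _
  have hM1 : ∀ᶠ n in UU, 4 * (Y n + 1) * P.z n ^ 10 ≤ P.M1 n := by
    obtain ⟨D, hD⟩ : 4 * (nr (st Y) + 1) * nr (st P.z) ^ 10 ∈ OO Z :=
      mul_mem (mul_mem (ofNat_mem _ 4) (add_mem hYO (one_mem _))) (pow_mem hzO 10)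
    have h1 := ((le_abs_self _).trans hD).trans (P.hM1 D)
    rw [nr_st, nr_st, nr_st] at h1
    refine (st_le.1 h1).mono fun n hn => ?_
    have h2 : 4 * ((Y n : ℝ) + 1) * (P.z n : ℝ) ^ 10 ≤ P.M1 n := hn
    exact_mod_cast h2
  have hML : ∀ᶠ n in UU, P.M2 n ≤ L n := st_le.1 (nr_le.1 (by simpa using hW.hL 0))
  have hz2' : ∀ᶠ n in UU, 2 ≤ P.z n := by
    rw [nr_st] at hz2
    refine (st_le.1 hz2).mono fun n hn => ?_
    have h2 : (2 : ℝ) ≤ P.z n := hn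
    exact_mod_cast h2
  have hT' : ∀ᶠ n in UU, ¬TII (P.MM n) (x n) (L n) (φ n) (δ n * L n) := by
    rw [ev_not, ← tn_st]
    rwa [nr_st] at hT
  have hφ' := bz_st.1 hφ
  have h1 : ∀ᶠ n in UU, ∃ (M N : ℕ) (T : Finset ℤ) (E : Finset (ℤ × ℤ)), M ≤ P.M2 n ∧
      P.z n ^ 10 ≤ N ∧ N ≤ M ∧ M ≤ 2 * (Y n + 1) * N ∧ (∀ m ∈ T, 0 ≤ m ∧ m ≤ 2 * (M : ℤ)) ∧
      (∀ m ∈ T, ∀ m' ∈ T, |m - m'| ≤ N) ∧
      (∀ m ∈ T, ∀ p : ℕ, p.Prime → p ≤ P.z n → ¬(p : ℤ) ∣ m) ∧
      δ n * N ≤ C0 * P.K n * (Real.log (P.z n) * T.card) ∧ E ⊆ T ×ˢ T ∧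
      δ n ^ 2 * (T.card : ℝ) ^ 2 ≤ C0 * P.K n ^ 2 * E.card ∧
      ∀ e ∈ E, ∃ s U : ℤ, 0 < U ∧ U * M ≤ 2 * L n ∧ δ n ^ 2 * L n ≤ C0 * P.K n ^ 2 * M *
        ‖∑ t ∈ Ico (0 : ℤ) U, φ n ((s + t) * e.1) * (starRingEnd ℂ) (φ n ((s + t) * e.2))‖ := by
    filter_upwards [hLn, hM1, hML, hz2', hT', hφ', P.hM2, st_lt.1 hδ0] with n a1 a2 a3 a4 a5 a6 a7 a8
    exact hcs _ _ _ _ _ _ _ _ _ a4 a2 a7 (P.K1 n) a3
      (by rw [mul_comm]; exact (Nat.lt_mul_div_succ _ a1).le) a8 a6 a5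
  obtain ⟨M, h1⟩ := ev_exists.1 h1
  obtain ⟨N, h1⟩ := ev_exists.1 h1
  obtain ⟨T, h1⟩ := ev_exists.1 h1
  obtain ⟨E, h1⟩ := ev_exists.1 h1
  simp only [eventually_and] at h1
  obtain ⟨b1, b2, b3, b4, b5, b6, b7, b8, b9, b10, b11⟩ := h1
  set c : HR := st fun _ => C0 with hc
  have c0 : 0 < c := st_lt.2 (Eventually.of_forall fun _ => hC0)
  have cO : c ∈ OO Q := real_OO C0
  have k1 : 1 ≤ nr (st P.K) := by
    rw [nr_st]; exact le_of_forall fun n => Nat.one_le_cast.2 (P.K1 n)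
  have k0 : 0 < nr (st P.K) := one_pos.trans_le k1
  have zN : nr (st P.z) ^ 10 ≤ nr (st N) := by
    rw [nr_st, nr_st]
    refine st_le.2 (b2.mono fun n hn => ?_)
    change (P.z n : ℝ) ^ 10 ≤ N n
    exact_mod_cast hn
  have N0 : 0 < nr (st N) := (pow_pos (two_pos.trans_le hz2) 10).trans_le zN
  have NM : nr (st N) ≤ nr (st M) := nr_le.2 (st_le.2 b3)
  have M0 : 0 < nr (st M) := N0.trans_le NM
  have MN : nr (st M) ≤ 2 * (nr (st Y) + 1) * nr (st N) := by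
    rw [nr_st, nr_st, nr_st]
    refine st_le.2 (b4.mono fun n hn => ?_)
    change (M n : ℝ) ≤ 2 * ((Y n : ℝ) + 1) * N n
    exact_mod_cast hn
  have big : st δ * nr (st N) ≤
      c * nr (st P.K) * ((st fun n => Real.log (P.z n) : HR) * cd (st T)) := by
    rw [nr_st, nr_st, cd_st]; exact st_le.2 b8
  have dn : st δ ^ 2 * cd (st T) ^ 2 ≤ c * nr (st P.K) ^ 2 * cd (st E) := by
    rw [nr_st, cd_st, cd_st]; exact st_le.2 b10
  have T0 : cd (st T) ≠ 0 := fun e => by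
    rw [e, mul_zero, mul_zero] at big
    exact absurd (mul_pos hδ0 N0) (not_lt.2 big)
  have d0 : 0 < c * nr (st P.K) ^ 2 := mul_pos c0 (pow_pos k0 2)
  have dB : Big Q (st δ ^ 2 / (c * nr (st P.K) ^ 2)) :=
    (hδ.pow 2).div (mul_mem cO (pow_mem P.hK 2)) d0.ne'
  have dP : 0 ≤ st δ ^ 2 / (c * nr (st P.K) ^ 2) := div_nonneg (sq_nonneg _) d0.le
  refine ⟨st M, st N, st T, ⟨nr_le.2 (st_le.2 b1), zN, NM, ?_, fun m hm => ?_,
    fun m m' hm hm' => ?_, ?_, ?_⟩, st E, fun p hp => ?_, ?_⟩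
  · refine OO_of_abs_le (mul_mem (ofNat_mem _ 2) (add_mem hYO (one_mem _))) ?_
    rw [abs_of_pos (div_pos M0 N0), div_le_iff₀ N0]
    exact MN
  · induction m using st_ind with | _ m
    have h2 := (b5.and (mem_st.1 hm)).mono fun n hn => hn.1 _ hn.2
    exact ⟨st_le.2 (h2.mono fun n hn => hn.1), st_le.2 (h2.mono fun n hn => hn.2)⟩
  · induction m using st_ind with | _ m
    induction m' using st_ind with | _ m'
    rw [Germ.abs_def]
    exact st_le.2 ((b6.and ((mem_st.1 hm).and (mem_st.1 hm'))).mono fun n hn =>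
      hn.1 _ hn.2.1 _ hn.2.2)
  · filter_upwards [rep_st (A := Ns (Finset ℤ)) T, b7] with n e hn
    rwa [e]
  · obtain ⟨D, hD⟩ := hδ.div_mem (mul_mem cO P.hK)
    refine ⟨D, ?_⟩
    have l0 : 0 ≤ (st fun n => Real.log (P.z n) : HR) * cd (st T) :=
      mul_nonneg (le_of_forall fun n => Real.log_natCast_nonneg _) (cd_nonneg _)
    refine le_trans ?_ (mul_le_mul_of_nonneg_right ((le_abs_self _).trans hD) l0)
    rw [div_mul_eq_mul_div, le_div_iff₀' hδ0]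
    exact big
  · induction p using st_ind with | _ p
    have hp' := mem_st.1 hp
    refine ⟨by
      rw [fprod_st]; exact mem_st.2 ((b9.and hp').mono fun n hn => hn.1 hn.2), ?_⟩
    obtain ⟨s, h2⟩ := ev_exists.1 ((b11.and hp').mono fun n hn => hn.1 _ hn.2)
    obtain ⟨U, h2⟩ := ev_exists.1 h2
    simp only [eventually_and] at h2
    obtain ⟨u1, u2, u3⟩ := h2
    set S : HR := st fun n => ‖∑ t ∈ Ico (0 : ℤ) (U n),
      φ n ((s n + t) * (p n).1) * (starRingEnd ℂ) (φ n ((s n + t) * (p n).2))‖ with hS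
    have U0 : (0 : HZ) < st U := st_lt.2 u1
    have U1 : 0 < ci (st U) := ci_pos.2 U0
    have v2 : ci (st U) * nr (st M) ≤ 2 * nr (st L) := by
      rw [nr_st, nr_st]
      refine st_le.2 (u2.mono fun n hn => ?_)
      change (U n : ℝ) * M n ≤ 2 * (L n : ℝ)
      exact_mod_cast hn
    have v3 : st δ ^ 2 * nr (st L) ≤ c * nr (st P.K) ^ 2 * nr (st M) * S := by
      rw [nr_st, nr_st, nr_st]; exact st_le.2 u3
    have v4 : S ≤ ci (st U) := st_le.2 ((u1.and hφ').mono fun n hn => Lc.sum_le _ hn.1 _ fun t => by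
      rw [norm_mul, Complex.norm_conj]
      exact mul_le_one₀ (hn.2 _) (norm_nonneg _) (hn.2 _))
    have v5 : nm (Ex (box fun _ : Unit => (st U : HZ)) fun t : Unit → HZ =>
        (ap (st φ) ((st s + t ()) * (st p : HZ × HZ).1) : HC) *
          cj (ap (st φ) ((st s + t ()) * (st p : HZ × HZ).2))) = S / ci (st U) := by
      rw [show (fun _ : Unit => (st U : HZ)) = st fun n _ => U n from rfl, box_st,
        Ex_st _ (φ := fun n t => φ n ((s n + t ()) * (p n).1) *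
          (starRingEnd ℂ) (φ n ((s n + t ()) * (p n).2))) fun t => ?_]
      · exact st_congr (A := HR) (u1.mono fun n hn => Lc.nm_box _ hn fun t =>
          φ n ((s n + t) * (p n).1) * (starRingEnd ℂ) (φ n ((s n + t) * (p n).2)))
      · have e1 := ap_st (A := HZ) (B := HC) φ fun n => (s n + t n ()) * (p n).1
        have e2 := ap_st (A := HZ) (B := HC) φ fun n => (s n + t n ()) * (p n).2
        exact (congrArg₂ (fun a b : HC => a * cj b) e1 e2).trans rfl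
    have R0 := div_pos hL0 M0
    have w1 : st δ ^ 2 / (c * nr (st P.K) ^ 2) ≤ S / (nr (st L) / nr (st M)) := by
      rw [div_le_div_iff₀ d0 R0, mul_div_assoc', div_le_iff₀ M0]
      exact v3.trans_eq (by ring)
    have w2 : ci (st U) / (nr (st L) / nr (st M)) ≤ 2 := by
      rw [div_le_iff₀ R0, mul_div_assoc', le_div_iff₀ M0]; exact v2
    have w3 := div_pos U1 R0
    have w4 : ci (st U) / (nr (st L) / nr (st M)) ∈ OO Q :=
      OO_of_abs_le (ofNat_mem _ 2) (by rwa [abs_of_pos w3])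
    refine ⟨st s, st U, U0, dB.mono dP (w1.trans (div_le_div_of_nonneg_right v4 R0.le)), w4, ?_⟩
    rw [BigC, v5, show S / ci (st U) = S / (nr (st L) / nr (st M)) /
      (ci (st U) / (nr (st L) / nr (st M))) by rw [div_div_div_cancel_right₀ R0.ne']]
    exact (dB.mono dP w1).div w4 w3.ne'
  · refine dB.mono dP ?_
    rw [cd_fprod, div_le_div_iff₀ d0 (mul_pos (cd_pos T0) (cd_pos T0)), ← sq, mul_comm (cd _)]
    exact dn

end Pool.Agent.P.MP_a14ce1_nt.Nil.Dc
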