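import Pool.Agent.P.MP_a14ce1_nt.Nil.Dec.St

/-!
The decomposition in the ultrapower, by induction on the dimension.
-/

open Filter Finset

set_option linter.unusedSectionVars false

noncomputable section

namespace Pool.Agent.P.MP_a14ce1_nt.Nil.Dc

variable {Q Z : HR} [Fact (2 ≤ Q)] [Fact (2 ≤ Z)] {P : Par Q Z}
  {ι : Type} [Fintype ι] [DecidableEq ι] {lv : ι → ℕ}

/-- The length of the shorter windows. -/
theorem Par.Win.short {x L : HN} (h : P.Win x L) (C : ℕ) : ∃ L' : HN, 0 < L' ∧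
    nr L / nr L' ∈ OO Z ∧ nr L' * Z ^ C ≤ nr L := by
  have hz := Q_pow_pos (Q := Z) C
  have h1 : 1 ≤ nr L / Z ^ C := (one_le_div hz).2 (h.le C)
  have h2 : (1 : HZ) ≤ flo (nr L / Z ^ C) := le_flo.2 (by rwa [map_one])
  obtain ⟨L', hL'⟩ := exists_nz (zero_le_one.trans h2)
  have h3 : 1 ≤ nr L' := by rw [nr, hL', ← map_one ci]; exact ci_le.2 h2
  have h4 : nr L' ≤ nr L / Z ^ C := by rw [nr, hL']; exact ci_flo_le _
  have h5 : nr L / Z ^ C < nr L' + 1 := by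
    change _ < ci (nz L') + 1
    rw [hL']; exact lt_ci_flo_add_one _
  have h6 : 0 < nr L' := one_pos.trans_le h3
  refine ⟨L', nr_pos.1 h6, OO_of_abs_le (y := 2 * Z ^ C)
    (mul_mem (natCast_mem _ 2) (pow_mem Q_mem C)) ?_, (le_div_iff₀ hz).1 h4⟩
  rw [abs_of_pos (div_pos h.pos h6), div_le_iff₀ h6]
  rw [div_lt_iff₀ hz] at h5
  nlinarith

/-- Small up to powers of `Z` is small for shorter windows. -/
theorem SR.short {L t : HR} {i : ℕ} (hi : 1 ≤ i) (hL : 0 < L) (h : SR Q (OO Z) L i t) :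
    ∃ C : ℕ, ∀ R, 0 < R → R * Z ^ C ≤ L → SR Q (OO Q) R i t := by
  obtain ⟨o, ⟨C, hC⟩, r, hr, rfl⟩ := h
  refine ⟨C, fun R hR h1 => ⟨o * (R / L) ^ i, OO_of_le_one ?_, r, hr, by
    rw [div_pow]; field_simp⟩⟩
  have hz := Q_pow_pos (Q := Z) C
  have h2 : 0 < R / L := div_pos hR hL
  have h3 : R / L * Z ^ C ≤ 1 := by rwa [div_mul_eq_mul_div, div_le_one hL]
  have h4 : R / L ≤ 1 := (le_mul_of_one_le_right h2.le (one_le_Q_pow C)).trans h3
  have h5 : (R / L) ^ i ≤ R / L := pow_le_of_le_one h2.le h4 (by omega)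
  rw [abs_mul, abs_of_pos (pow_pos h2 i)]
  exact (mul_le_mul hC h5 (pow_pos h2 i).le hz.le).trans (by rwa [mul_comm])

theorem exists_period {q : HR} (h : q ∈ ZZ ∧ q ∈ OO Q ∧ q ≠ 0) :
    ∃ q' : HZ, 0 < q' ∧ ci q' ∈ OO Q ∧ ∃ z ∈ ZZ, ci q' = q * z := by
  obtain ⟨s, rfl⟩ := mem_ZZ.1 h.1
  refine ⟨s * s, ?_, by rw [map_mul]; exact mul_mem h.2.1 h.2.1, _, h.1, map_mul _ _ _⟩
  exact mul_self_pos.2 fun e => h.2.2 (by rw [e, map_zero])

/-- One step on a short window. -/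
theorem step (h1 : S_GCls) {x L : HN} (hw : P.Win x L) {g h : Fam (KK Q) lv ℕ} {D : ℕ}
    (hg : g.Fil D) (hh : h.Fil D) (hle : h ≤ g) {q : HR} {F : UT lv HR → HC}
    (hF : Nice Q q g.GG F) {a b : UT lv HR} (ha : a ∈ g.GG) (hb : b ∈ g.GG)
    (hO : Ent (OO Q : Set HR) a.val) (hL : Lev q b) {e y c : PS lv Unit HR}
    (he : e ∈ (g.fine Unit).plus.PG ⊓ (Sm Q fun _ : Unit => nr L * Z).EE lv)
    (hy : y ∈ (h.fine Unit).PG) (hc : c ∈ (g.fine Unit).PG ⊓ (Rt Q 1).EE lv) {φ : Ns (ℤ → ℂ)}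
    (hφ : ∀ n : HZ, ap φ n = F (a * e1 (n - nz x) (e * y * c) * b))
    (ih : ∀ (q' : HR) (F' : UT lv HR → HC) (y' : PS lv Unit HR) (φ' : Ns (ℤ → ℂ)),
      Nice Q q' h.GG F' → y' ∈ (h.fine Unit).PG → (∀ n : HZ, ap φ' n = F' (e1 n y')) →
        P.DG x L φ') : P.DG x L φ := by
  obtain ⟨r, hr⟩ := exists_denS hc.2
  have hyg : y ∈ (g.fine Unit).PG := Fam.PG_mono (Fam.fine_mono hle) hy
  have k0 : ∀ t : HZ, Nice Q (q * (r * r)) g.GG fun w => F (a * w * e1 t c) := fun t =>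
    (hF.right (ev_mem hg hc.1 _) hr.1 (hr.ev fun _ => t).1 (hr.ev fun _ => t).2).left ha hO
  obtain ⟨q', q1, q2, q3⟩ := exists_period (k0 0).lvl
  refine h1 Q Z P x L φ q' hw q1 q2 fun a0 => ?_
  have k1 := k0 (a0 - nz x)
  have e3 : ∀ n : HZ, e1 n (sh (fun _ => -nr x) y) = e1 (n - nz x) y := fun n => by
    rw [e1, ev_sh, e1, map_sub, sub_eq_add_neg]; rfl
  obtain ⟨φ', hφ'⟩ := IntF.eq_ap (f := fun n : HZ => F (a * e1 (n - nz x) y * e1 (a0 - nz x) c))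
    (k1.int.comp (by fun_prop))
  refine ⟨φ', ih _ _ _ φ' (k1.mono (Fam.GG_mono hle)) (sh_mem hh hy fun _ => -nr x).1
    fun n => by rw [← hφ', e3], fun n n1 n2 ⟨m, hm⟩ => ?_⟩
  have et := ev_mem hg (mem_plus.1 he.1).1 fun _ => ci (n - nz x)
  have yt := ev_mem hg hyg fun _ => ci (n - nz x)
  have ct := ev_mem hg hc.1 fun _ => ci (n - nz x)
  have c0 := ev_mem hg hc.1 fun _ => ci (a0 - nz x)
  have hZ : (0 : HR) < Z := Q_pos
  have hR : 0 < nr L * Z := mul_pos hw.pos hZ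
  have t1 : 0 ≤ ci (n - nz x) := ci_nonneg.2 (sub_nonneg.2 n1)
  have t2 : ci (n - nz x) ≤ nr L := ci_le.2 (by linarith)
  have t3 : Tiny Q (ci (n - nz x) / (nr L * Z)) := P.tiny.mono (div_nonneg t1 hR.le) (by
    rw [div_le_iff₀ hR, mul_comm (nr L), inv_mul_cancel_left₀ hZ.ne']; exact t2)
  have t4 := ev_tiny he.2 (a := fun _ => ci (n - nz x)) (b := 0)
    fun _ => ⟨hR.ne', t3.mem_OO, by simpa using t3⟩
  rw [(mem_plus.1 he.1).2, inv_one, mul_one] at t4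
  have l1 := hr.lev q3 (fun _ => a0 - nz x) fun _ => m
  have e4 : zv ((fun _ : Unit => a0 - nz x) + q' • fun _ => m) = fun _ => ci (n - nz x) := by
    funext l
    change ci (a0 - nz x + q' * m) = _
    rw [← hm]; congr 1; ring
  rw [e4] at l1
  have s1 := hF.per b hb hL _ (mul_mem ha (mul_mem (mul_mem et yt) ct))
  have s2 := hF.per _ (mul_mem (inv_mem c0) ct) l1 _ (mul_mem (mul_mem ha (mul_mem et yt)) c0)
  have s3 := k1.cts _ et t4 _ yt
  rw [hφ, ← hφ', map_mul, map_mul]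
  simp only [mul_assoc, mul_inv_cancel_left] at s1 s2 s3 ⊢
  exact (s1.trans s2).trans s3

theorem main (h1 : S_GCls) (h2 : S_GWin) (h3 : S_Irr) : S_Main := by
  intro Q Z _ _ P x L ι _ _ lv g D q F y φ hw hg hF hy hφ
  induction hm : ∑ j ∈ range (D + 1), Module.finrank HR (g.r j) using Nat.strong_induction_on
    generalizing g x L q F y φ with | _ d ih
  by_cases hi : Irr (P.SZ (nr L)) (Rt Q 1) g ⊥ y
  · exact h3 Q Z P x L ι lv g D q F y φ hw hg hF hy hi hφ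
  rw [Par.SZ, irr_iff _ hw.pos.ne'] at hi
  push Not at hi
  obtain ⟨i, η, ha, hs⟩ := hi
  obtain ⟨C, hC⟩ := hs.short ha.pos hw.pos
  obtain ⟨L', l1, l2, l3⟩ := hw.short (C + 1)
  have hZ : (0 : HR) < Z := Q_pos
  have l4 := nr_pos.2 l1
  have l5 : 0 < nr L' * Z := mul_pos l4 hZ
  have hs' := hC _ l5 (by rwa [mul_assoc, ← pow_succ'])
  have hlt : ∑ j ∈ range (D + 1), Module.finrank HR ((ha.ker hg).r j) < d := by
    rw [← hm]
    exact sum_lt_sum (fun j _ => Submodule.finrank_mono (ha.ker_le hg j))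
      ⟨i, mem_range.2 (Nat.lt_succ_of_le (ha.le hg)),
        Submodule.finrank_lt_finrank_of_lt (ha.ker_lt hg)⟩
  refine h2 Q Z P x L L' φ hw l1 l2 (P.tiny.mono (div_pos l4 hw.pos).le ?_)
    (fun n => by rw [hφ]; exact hF.bd _) fun x' _ x2 => ?_
  · rw [div_le_iff₀ hw.pos, ← div_eq_inv_mul, le_div_iff₀ hZ]
    refine le_trans (mul_le_mul_of_nonneg_left ?_ l4.le) l3
    exact (pow_one Z).symm.le.trans (Q_pow_mono (by omega))
  have hw' : P.Win x' L' := hw.sub l1 l2 (nr_le.1 (by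
    have := nr_le.2 x2
    rw [nr_add] at this
    linarith))
  obtain ⟨a, a1, b, b1, hab, hO, hL⟩ := normaliseQ g hF.lvl (ev_mem hg hy fun _ => nr x')
  have k1 := (symbol hg hy (fun _ => nr x') (inv_mem a1) (inv_mem b1)).1
  obtain ⟨e, he, y', hy', c, hc, hx⟩ := peel (S := Sm Q fun _ : Unit => nr L' * Z) (T := Rt Q 1)
    ha hg (mem_plus.2 ⟨k1, by
      rw [map_mul, map_mul, ev_cst, ev_cst, ev_sh, zero_add, hab]; group⟩) fun β hβ => by
      rw [ha.symbol hg hy _ (inv_mem a1) (inv_mem b1) hβ, unit_single hβ]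
      exact (sr_iff KK_le_OO l5.ne').2 hs'
  refine step h1 hw' hg (ha.ker_fil hg) (ha.ker_le hg) hF a1 b1 hO hL he (mem_plus.1 hy').1
    ⟨(mem_plus.1 hc.1).1, hc.2⟩ (fun n => ?_)
    fun q' F' y2 φ' n1 n2 n3 => ih _ hlt x' L' _ q' F' y2 φ' hw' (ha.ker_fil hg) n1 n2 n3 rfl
  rw [hφ, ← hx, map_mul, map_mul, e1, e1, ev_cst, ev_cst, ev_sh]
  have : ((fun _ : Unit => ci (n - nz x')) + fun _ => nr x') = fun _ => ci n := by
    funext l
    change ci (n - nz x') + ci (nz x') = _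
    rw [← map_add, sub_add_cancel]
  rw [this]
  congr 1
  group

end Pool.Agent.P.MP_a14ce1_nt.Nil.Dc
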