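import Pool.Agent.P.MP_a14ce1_nt.Nil.Dec.St
import Pool.Agent.P.MP_a14ce1_nt.Nil.Sparse

/-!
The number of pairs in a window.
-/

open Finset

namespace Pool.Agent.P.MP_a14ce1_nt.Nil.Dc

theorem card_fib {m : ℕ} (hm : 0 < m) (x L : ℕ) :
    (((range (x + L)).filter fun u => x ≤ u * m ∧ u * m < x + L).card : ℝ) ≤ (L : ℝ) / m + 1 := by
  have hs : ((range (x + L)).filter fun u => x ≤ u * m ∧ u * m < x + L) ⊆
      Ico ((x + m - 1) / m) ((x + m - 1) / m + (L / m + 1)) := by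
    intro u hu
    obtain ⟨-, h1, h2⟩ := mem_filter.1 hu
    have h3 := Nat.div_add_mod (x + m - 1) m
    have h4 := Nat.mod_lt (x + m - 1) hm
    have h5 : (x + m - 1) / m ≤ u := by
      refine Nat.lt_succ_iff.1 ((Nat.div_lt_iff_lt_mul hm).2 ?_)
      rw [Nat.succ_mul]; omega
    obtain ⟨d, rfl⟩ := Nat.exists_eq_add_of_le h5
    have h6 : d ≤ L / m := by
      refine (Nat.le_div_iff_mul_le hm).2 ?_
      rw [add_mul, mul_comm _ m] at h2
      omega
    exact mem_Ico.2 ⟨h5, by omega⟩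
  have := card_le_card hs
  rw [Nat.card_Ico, Nat.add_sub_cancel_left] at this
  calc _ ≤ ((L / m + 1 : ℕ) : ℝ) := by exact_mod_cast this
    _ ≤ _ := by push_cast; gcongr; exact Nat.cast_div_le

theorem card_pairs_le {MM : Finset ℕ} {L : ℕ} (h : ∀ m ∈ MM, 0 < m ∧ m ≤ L) (x : ℕ) :
    ((pairs MM x L).card : ℝ) ≤ 2 * L * ∑ m ∈ MM, (1 : ℝ) / m := by
  have h1 : (pairs MM x L).card =
      ∑ m ∈ MM, ((range (x + L)).filter fun u => x ≤ u * m ∧ u * m < x + L).card := by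
    simp only [pairs, card_filter, sum_product]
  rw [h1, mul_sum]
  push_cast
  refine sum_le_sum fun m hm => (card_fib (h m hm).1 x L).trans ?_
  have h2 : (0 : ℝ) < m := by exact_mod_cast (h m hm).1
  have h3 : (1 : ℝ) ≤ L / m := (one_le_div h2).2 (by exact_mod_cast (h m hm).2)
  have : 2 * (L : ℝ) * (1 / m) = L / m + L / m := by ring
  linarith

theorem log_cnt {z M2 K : ℕ} (hz : 2 ≤ z) (hM : M2 ≤ z ^ K) (hK : 1 ≤ K) :
    ((Nat.log 2 M2 + 1 : ℕ) : ℝ) ≤ 3 * K * Real.log z := by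
  have h1 : 2 ^ Nat.log 2 M2 ≤ z ^ K := by
    rcases Nat.eq_zero_or_pos M2 with rfl | h
    · simpa using Nat.one_le_pow _ _ (by omega)
    · exact (Nat.pow_log_le_self 2 h.ne').trans hM
  have h2 : (Nat.log 2 M2 : ℝ) * Real.log 2 ≤ K * Real.log z := by
    rw [← Real.log_pow, ← Real.log_pow]
    exact Real.log_le_log (by positivity) (by exact_mod_cast h1)
  have h3 : Real.log 2 ≤ Real.log z := Real.log_le_log two_pos (by exact_mod_cast hz)
  have h4 := Real.log_two_gt_d9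
  have h5 : (1 : ℝ) ≤ K := by exact_mod_cast hK
  have h6 : Real.log z ≤ K * Real.log z := le_mul_of_one_le_left (by linarith) h5
  have h7 : (0 : ℝ) ≤ Nat.log 2 M2 := Nat.cast_nonneg _
  push_cast
  nlinarith

theorem tot : S_Tot := by
  classical
  obtain ⟨Ks, hK, hr⟩ := rough_class
  refine ⟨6 * Ks, by positivity, fun z M1 M2 K x L hz h1 h2 hK1 hL => ?_⟩
  have lz : 0 < Real.log z := Real.log_pos (by exact_mod_cast hz)
  have hpos : ∀ m ∈ roughs z M1 M2, z ^ 10 ≤ m ∧ m ≤ M2 := fun m hm =>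
    ⟨h1.trans (mem_roughs.1 hm).1.1, (mem_roughs.1 hm).1.2⟩
  have z0 : 0 < z ^ 10 := by positivity
  have blk : ∀ k, ∑ m ∈ (roughs z M1 M2).filter (fun m => Nat.log 2 m = k), (1 : ℝ) / m ≤
      Ks / Real.log z := by
    intro k
    set S := (roughs z M1 M2).filter fun m => Nat.log 2 m = k with hS
    have hb : ∀ m ∈ S, 2 ^ k ≤ m ∧ m < 2 ^ k + 2 ^ k := fun m hm => by
      obtain ⟨h3, rfl⟩ := mem_filter.1 hm
      have := Nat.lt_pow_succ_log_self one_lt_two m
      exact ⟨Nat.pow_log_le_self 2 (z0.trans_le (hpos m h3).1).ne', by rw [pow_succ] at this; omega⟩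
    rcases S.eq_empty_or_nonempty with h | ⟨m0, h0⟩
    · rw [h, sum_empty]; positivity
    have h9 : z ^ 9 * 1 ≤ 2 ^ k := by
      have h3 := (hpos m0 (mem_filter.1 h0).1).1
      have h4 := (hb m0 h0).2
      have : z ^ 9 * 2 ≤ z ^ 10 := by rw [pow_succ z 9]; gcongr
      omega
    have h3 := hr z 1 (2 ^ k) ((2 ^ k : ℕ) : ℤ) 0 (S.image fun m : ℕ => (m : ℤ)) hz one_pos h9
      (fun t ht => by
        obtain ⟨m, hm, rfl⟩ := mem_image.1 ht
        exact mem_Ico.2 ⟨by exact_mod_cast (hb m hm).1, by exact_mod_cast (hb m hm).2⟩)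
      (fun t _ => by simpa using Int.modEq_one)
      (fun t ht p hp hpz _ => by
        obtain ⟨m, hm, rfl⟩ := mem_image.1 ht
        exact fun hd => (mem_roughs.1 (mem_filter.1 hm).1).2 p hp hpz (Int.natCast_dvd_natCast.1 hd))
    rw [card_image_of_injective _ Nat.cast_injective, Nat.totient_one, Nat.cast_one, one_mul] at h3
    have k0 : (0 : ℝ) < (2 ^ k : ℕ) := by positivity
    calc _ ≤ ∑ _m ∈ S, (1 : ℝ) / (2 ^ k : ℕ) := sum_le_sum fun m hm =>
          one_div_le_one_div_of_le k0 (by exact_mod_cast (hb m hm).1)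
      _ = S.card / (2 ^ k : ℕ) := by rw [sum_const, nsmul_eq_mul, mul_one_div]
      _ ≤ _ := by rw [div_le_div_iff₀ k0 lz]; exact h3
  have sm : ∑ m ∈ roughs z M1 M2, (1 : ℝ) / m ≤ 3 * K * Ks := by
    rw [← sum_fiberwise_of_maps_to (t := range (Nat.log 2 M2 + 1)) (g := Nat.log 2)
      fun m hm => mem_range.2 (Nat.lt_succ_of_le (Nat.log_mono_right (hpos m hm).2))]
    calc _ ≤ ∑ _k ∈ range (Nat.log 2 M2 + 1), Ks / Real.log z := sum_le_sum fun k _ => blk k
      _ = ((Nat.log 2 M2 + 1 : ℕ) : ℝ) * (Ks / Real.log z) := by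
          rw [sum_const, card_range, nsmul_eq_mul]
      _ ≤ 3 * K * Real.log z * (Ks / Real.log z) := by gcongr; exact log_cnt hz h2 hK1
      _ = _ := by field_simp
  calc _ ≤ _ := card_pairs_le (fun m hm => ⟨z0.trans_le (hpos m hm).1, (hpos m hm).2.trans hL⟩) x
    _ ≤ 2 * L * (3 * K * Ks) := by gcongr
    _ = _ := by ring

end Pool.Agent.P.MP_a14ce1_nt.Nil.Dc
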