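import Pool.Agent.P.MP_a14ce1_nt.Nil.Dec.St

/-! Type II forms as averages over the set of pairs. -/

open Filter Finset
open scoped BigOperators

set_option linter.unusedSectionVars false

noncomputable section

namespace Pool.Agent.P.MP_a14ce1_nt.Nil.Dc

namespace TstP

variable {Q Z : HR} [Fact (2 ≤ Q)] [Fact (2 ≤ Z)] {P : Par Q Z}

theorem form (x L : ℕ → ℕ) (α β : ℕ → ℕ → ℂ) (ψ : ℕ → ℤ → ℂ) {f : HZ → HC}
    (hf : ∀ t : ℕ → ℤ, f (st t) = st fun n => ψ n (t n)) :
    nm (Ex (P.PR (st x) (st L)) fun p : HN × HN => wt (st α) (st β) p * f (pt p))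
      * cd (P.PR (st x) (st L)) = st fun n =>
      ‖∑ a ∈ pairs (P.MM n) (x n) (L n), β n a.1 * α n a.2 * ψ n ((a.2 * a.1 : ℕ) : ℤ)‖ := by
  rw [pr_st, Ex_st _ (φ := fun n a => β n a.1 * α n a.2 * ψ n ((a.2 * a.1 : ℕ) : ℤ)) fun a => by
    change ap (st β) (st fun n => (a n).1 : HN) * ap (st α) (st fun n => (a n).2 : HN)
      * f (st fun n => (((a n).2 * (a n).1 : ℕ) : ℤ)) = _
    rw [ap_st, ap_st, hf]; rfl]
  refine congrArg st (funext fun n => ?_)
  change ‖𝔼 a ∈ _, _‖ * (_ : ℝ) = _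
  rw [← card_smul_expect, nsmul_eq_mul, norm_mul, Complex.norm_natCast, mul_comm]; rfl

theorem tot_mem (h0 : S_Tot) {x L : HN} (h : P.Win x L) : cd (P.PR x L) / nr L ∈ OO Q := by
  obtain ⟨K0, k0, hK⟩ := h0
  have p := h.pos
  have a1 : (2 : HR) ≤ nr (st P.z) := (Fact.out : 2 ≤ Q).trans ((pow_one Q).symm.le.trans (P.hz 1))
  have a2 := (pow_le_pow_left₀ (nr_nonneg _) P.zZ 10).trans (P.hM1 10)
  have a3 := h.hL 0
  induction x using st_ind with | _ x
  induction L using st_ind with | _ L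
  refine OO_of_abs_le (mul_mem (real_OO K0) P.hK) ?_
  rw [abs_of_nonneg (div_nonneg (cd_nonneg _) p.le), div_le_iff₀ p, pr_st, nr_st, nr_st]
  rw [pow_zero, mul_one, nr_le] at a3
  rw [nr_st] at a1
  rw [nr_st, nr_st] at a2
  refine st_le.2 ?_
  filter_upwards [(st_le (x := fun _ => 2)).1 a1, (st_le (x := fun n => (P.z n : ℝ) ^ 10)).1 a2,
    st_le.1 a3, P.hM2] with n b1 b2 b3 b4
  exact hK _ _ _ _ _ _ (by exact_mod_cast b1) (by exact_mod_cast b2) b4 (P.K1 n) b3

end TstP

open TstP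

theorem t1 (h0 : S_Tot) : S_T1 := by
  intro Q Z _ _ P x L φ c hW hφ hc h δ hδ d0
  have p := hW.pos
  have hT := tot_mem h0 hW
  induction x using st_ind with | _ x
  induction L using st_ind with | _ L
  induction φ using st_ind with | _ φ
  induction c using st_ind with | _ c
  induction δ using st_ind with | _ δ
  have key : ∀ᶠ n in UU, TII (P.MM n) (x n) (L n) (fun t => φ n t - c n) (δ n * L n) := by
    by_contra hn
    simp only [TII, ← ev_not, not_forall, not_le] at hn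
    obtain ⟨α, hn⟩ := ev_exists.1 hn
    obtain ⟨β, hn⟩ := ev_exists.1 hn
    have hα : B1 (st α) := b1_st.2 (hn.mono fun n ⟨a, _⟩ => a)
    have hβ : B1 (st β) := b1_st.2 (hn.mono fun n ⟨_, a, _⟩ => a)
    have e := form (P := P) x L α β (fun n t => φ n t - c n) (f := fun t => ap (st φ) t - st c)
      fun t => by rw [ap_st]; rfl
    have lt := ((st_lt (x := fun n => δ n * L n)).2 (hn.mono fun n ⟨_, _, a⟩ => a)).trans_eq e.symm
    rw [show (st fun n => δ n * L n : HR) = st δ * nr (st L) by rw [nr_st]; rfl,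
      ← lt_div_iff₀ p, mul_div_assoc] at lt
    have hb := hδ.mono d0.le lt.le
    refine h (hb.of_mul' (OO_of_abs_le (ofNat_mem _ 2) ?_)) _ _ hα hβ (hb.of_mul hT)
    rw [abs_nm]
    refine nm_Ex_le (by fun_prop) zero_le_two fun a _ => ?_
    rw [nm_mul]
    refine (mul_le_of_le_one_left (nm_nonneg _) (nm_mul_le_one (hβ _) (hα _))).trans
      ((nm_sub_le _ _).trans ?_)
    linarith [hφ (pt a)]
  refine ⟨0, ?_⟩
  rw [pow_zero, nr_st]
  refine (dn_st (b := fun _ => 1) (c := fun n => δ n * L n)).2 ?_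
  filter_upwards [key, (st_le (x := fun n => ‖c n‖) (y := fun _ => 1)).1 hc] with n a b
  exact ⟨fun _ => c n, ∅, fun _ => b, by simp, fun _ _ _ _ _ => rfl, a⟩

theorem t2 : S_T2 := by
  intro Q Z _ _ P x L φ hW hb hT α β hα hβ
  have p := hW.pos
  refine Tiny.of_mul (tiny_iff_le.2 fun δ hδ => ?_) hb
  have h := hT _ (big_abs.2 hδ) (abs_pos.2 hδ.ne_zero)
  generalize |δ| = ε at h
  induction x using st_ind with | _ x
  induction L using st_ind with | _ L
  induction φ using st_ind with | _ φ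
  induction α using st_ind with | _ α
  induction β using st_ind with | _ β
  induction ε using st_ind with | _ ε
  rw [abs_of_nonneg (mul_nonneg (nm_nonneg _) (div_nonneg (cd_nonneg _) p.le)), ← mul_div_assoc,
    div_le_iff₀ p, form x L α β φ (ap_st φ), nr_st]
  rw [nr_st] at h
  refine (st_le (y := fun n => ε n * L n)).2 ?_
  filter_upwards [(tn_st (c := fun n => ε n * L n)).1 h, b1_st.1 hα, b1_st.1 hβ] with n a b c
    using a _ _ b c

end Pool.Agent.P.MP_a14ce1_nt.Nil.Dc
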