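import Pool.Agent.P.MP_a14ce1_nt.Nil.Dec.St

/-!
Gluing decompositions along shorter windows.
-/

open Finset

noncomputable section

namespace Pool.Agent.P.MP_a14ce1_nt.Nil.Dc

namespace WnP

/-- the index of the short window that contains `n` -/
def idx (x L' : ℕ) (n : ℤ) : ℕ := (n - x).toNat / L'

theorem idx_nat (x L' n : ℕ) : idx x L' (n : ℤ) = (n - x) / L' := by
  unfold idx
  congr 1
  omega

theorem idx_mono (x L' : ℕ) {a b : ℤ} (h : a ≤ b) : idx x L' a ≤ idx x L' b :=
  Nat.div_le_div_right (by omega)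

theorem idx_lt {x L' j : ℕ} (h0 : 0 < L') {n : ℤ} (hn : (x : ℤ) ≤ n) :
    idx x L' n < j ↔ n < (x : ℤ) + j * L' := by
  unfold idx
  rw [Nat.div_lt_iff_lt_mul h0]
  have : ((j * L' : ℕ) : ℤ) = (j : ℤ) * L' := by push_cast; ring
  omega

theorem idx_eq {x L' j n : ℕ} (h0 : 0 < L') (hn : x ≤ n) :
    idx x L' (n : ℤ) = j ↔ x + j * L' ≤ n ∧ n < x + j * L' + L' := by
  rw [idx_nat, Nat.div_eq_iff h0]
  omega

end WnP

open WnP in
theorem wn : S_Win := by
  intro W MM x L L' φ nB c t hM h0 hφ hB hc h ht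
  obtain ⟨J, hJ⟩ : ∃ J, J = L / L' := ⟨_, rfl⟩
  have hJ1 : J * L' ≤ L := hJ ▸ Nat.div_mul_le_self L L'
  have hJ2 : L < J * L' + L' := hJ ▸ Nat.lt_div_mul_add h0
  have hJ3 : (J : ℝ) ≤ (L : ℝ) / L' := hJ ▸ Nat.cast_div_le
  have h1 : ∀ j : ℕ, ∃ (ψ : ℤ → ℂ) (B : Finset ℤ), j < J → (∀ n, ‖ψ n‖ ≤ 1) ∧ (B.card : ℝ) ≤ nB ∧
      Maj W B ψ ∧ TII MM (x + j * L') L' (fun n => φ n - ψ n) c := fun j => by
    by_cases hj : j < J
    · have : (j + 1) * L' ≤ J * L' := Nat.mul_le_mul_right _ hj
      obtain ⟨ψ, B, k⟩ := h (x + j * L') (Nat.le_add_right _ _) (by rw [add_mul] at this; omega)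
      exact ⟨ψ, B, fun _ => k⟩
    · exact ⟨0, ∅, fun k => absurd k hj⟩
  choose ψ B hψ using h1
  classical
  refine ⟨fun n => if (x : ℤ) ≤ n ∧ idx x L' n < J then ψ (idx x L' n) n else 0,
    (range J).biUnion B ∪ (range (J + 1)).image fun j : ℕ => (x : ℤ) + j * L', fun n => ?_, ?_,
    fun a b hab hW hn => ?_, fun α β ha hb => ?_⟩
  · beta_reduce
    split_ifs with k
    · exact (hψ _ k.2).1 n
    · simp
  · have e1 : (((range J).biUnion B).card : ℝ) ≤ J * nB := by
      have : (((range J).biUnion B).card : ℝ) ≤ ∑ j ∈ range J, ((B j).card : ℝ) := by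
        exact_mod_cast card_biUnion_le
      refine this.trans ((sum_le_card_nsmul _ _ nB fun j hj => (hψ j (mem_range.1 hj)).2.1).trans ?_)
      rw [card_range, nsmul_eq_mul]
    have e2 : (((range (J + 1)).image fun j : ℕ => (x : ℤ) + j * L').card : ℝ) ≤ J + 1 := by
      have := card_image_le (s := range (J + 1)) (f := fun j : ℕ => (x : ℤ) + j * L')
      rw [card_range] at this
      exact_mod_cast this
    have e3 : ((((range J).biUnion B ∪ (range (J + 1)).image fun j : ℕ => (x : ℤ) + j * L').card :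
        ℕ) : ℝ) ≤ ((range J).biUnion B).card +
          ((range (J + 1)).image fun j : ℕ => (x : ℤ) + j * L').card := by
      exact_mod_cast card_union_le _ _
    have e4 : ((J : ℝ) + 1) * (nB + 1) ≤ ((L : ℝ) / L' + 1) * (nB + 1) :=
      mul_le_mul_of_nonneg_right (by linarith) (by linarith)
    nlinarith
  · have hk : ∀ j : ℕ, j ≤ J → ¬(a < (x : ℤ) + j * L' ∧ (x : ℤ) + j * L' ≤ b) := fun j hj =>
      hn _ (mem_union_right _ (mem_image.2 ⟨j, mem_range.2 (Nat.lt_succ_of_le hj), rfl⟩))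
    by_cases hx : (x : ℤ) ≤ a
    · have hx' : (x : ℤ) ≤ b := hx.trans hab
      have hm := idx_mono x L' hab
      by_cases hj : idx x L' a < J
      · have k1 := (idx_lt (j := idx x L' a + 1) h0 hx).1 (Nat.lt_succ_self _)
        have k2 := hk (idx x L' a + 1) hj
        have k3 := (idx_lt (j := idx x L' a + 1) h0 hx').2 (by
          by_contra k
          exact k2 ⟨k1, not_lt.1 k⟩)
        have k4 : idx x L' b = idx x L' a := by omega
        simp only [k4, hx, hx', hj, and_self, if_true]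
        exact (hψ _ hj).2.2.1 a b hab hW fun s hs =>
          hn s (mem_union_left _ (mem_biUnion.2 ⟨_, mem_range.2 hj, hs⟩))
      · have hj' : ¬idx x L' b < J := by omega
        simp only [hj, hj', and_false, if_false]
    · have k := hk 0 (Nat.zero_le _)
      simp only [Nat.cast_zero, zero_mul, add_zero] at k
      have hx' : ¬(x : ℤ) ≤ b := fun k' => k ⟨not_le.1 hx, k'⟩
      simp only [hx, hx', false_and, if_false]
  · have hmap : ∀ a ∈ pairs MM x L, idx x L' ((a.2 * a.1 : ℕ) : ℤ) ∈ range (J + 1) := fun a ha' => by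
      have k := (mem_pairs hM).1 ha'
      rw [mem_range, idx_nat, Nat.div_lt_iff_lt_mul h0, add_mul]
      omega
    rw [← sum_fiberwise_of_maps_to hmap, sum_range_succ]
    refine (norm_add_le _ _).trans (add_le_add ((norm_sum_le _ _).trans ?_) ?_)
    · refine (sum_le_card_nsmul _ _ c fun j hj => ?_).trans ?_
      · have hj' := mem_range.1 hj
        have hle : (j + 1) * L' ≤ J * L' := Nat.mul_le_mul_right _ hj'
        rw [add_mul] at hle
        have e : (pairs MM x L).filter (fun a => idx x L' ((a.2 * a.1 : ℕ) : ℤ) = j) =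
            pairs MM (x + j * L') L' := by
          ext a
          rw [mem_filter, mem_pairs hM, mem_pairs hM]
          constructor
          · rintro ⟨⟨k1, k2, _⟩, k4⟩
            exact ⟨k1, (idx_eq h0 k2).1 k4⟩
          · rintro ⟨k1, k2, k3⟩
            exact ⟨⟨k1, by omega, by omega⟩, (idx_eq h0 (by omega)).2 ⟨k2, k3⟩⟩
        refine le_of_eq_of_le (congrArg _ ?_) ((hψ j hj').2.2.2 α β ha hb)
        rw [← e]
        refine sum_congr rfl fun a ha' => ?_
        obtain ⟨k1, k2⟩ := mem_filter.1 ha'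
        have k3 : (x : ℤ) ≤ ((a.2 * a.1 : ℕ) : ℤ) := by exact_mod_cast ((mem_pairs hM).1 k1).2.1
        simp only [k2, k3, hj', and_self, if_true]
      · rw [card_range, nsmul_eq_mul]
        exact mul_le_mul_of_nonneg_right hJ3 hc
    · refine (norm_sum_le _ _).trans ((sum_le_card_nsmul _ _ 1 fun a ha' => ?_).trans ?_)
      · have k2 := (mem_filter.1 ha').2
        simp only [k2, lt_irrefl, and_false, if_false, sub_zero, norm_mul]
        exact mul_le_one₀ (mul_le_one₀ (hb _) (norm_nonneg _) (ha _)) (norm_nonneg _) (hφ _)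
      · rw [nsmul_eq_mul, mul_one]
        refine le_trans ?_ (ht (x + J * L'))
        refine Nat.cast_le.2 (card_le_card fun a ha' => ?_)
        obtain ⟨k1, k2⟩ := mem_filter.1 ha'
        have k := (mem_pairs hM).1 k1
        exact (mem_pairs hM).2 ⟨k.1, (idx_eq h0 k.2.1).1 k2⟩

end Pool.Agent.P.MP_a14ce1_nt.Nil.Dc
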