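import Pool.Agent.P.MP_a14ce1_nt.Nil.Leib
import Pool.Agent.P.MP_a14ce1_nt.Nil.AxAT
import Pool.Agent.P.MP_a14ce1_nt.Nil.Dec.Tot
import Pool.Agent.P.MP_a14ce1_nt.Nil.Dec.Cls
import Pool.Agent.P.MP_a14ce1_nt.Nil.Dec.Wn
import Pool.Agent.P.MP_a14ce1_nt.Nil.Dec.CS
import Pool.Agent.P.MP_a14ce1_nt.Nil.Dec.Glue
import Pool.Agent.P.MP_a14ce1_nt.Nil.Dec.Tst
import Pool.Agent.P.MP_a14ce1_nt.Nil.Dec.Loc
import Pool.Agent.P.MP_a14ce1_nt.Nil.Dec.Scal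
import Pool.Agent.P.MP_a14ce1_nt.Nil.Dec.Core
import Pool.Agent.P.MP_a14ce1_nt.Nil.Dec.Irr
import Pool.Agent.P.MP_a14ce1_nt.Nil.Dec.Main
import Pool.Agent.P.MP_a14ce1_nt.Nil.Dec.Fin

/-! Assembly of the decomposition axiom. -/

namespace Pool.Agent.P.MP_a14ce1_nt.Nil.Dc

theorem leib1 : S_Leib := fun _ _ _ _ _ _ _ _ _ _ _ _ _ _ hg hc hξ hF he hN hx hi =>
  leib hg hc hξ hF he hN hx hi

theorem main_all : S_Main :=
  main (gcls tot cls) (gwin tot wn)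
    (irr (t1 tot) t2 (core (loc cs) (two leib1) scal) equiT leib1)

theorem dec_all : S_Dec := fin main_all

/-- the decomposition axiom for the nilsequences of one type -/
theorem decAx_AT (T : GI.Ty) (k : ℕ) : DecAx (AxGI.AT T k) := decAx_At dec_all T k

end Pool.Agent.P.MP_a14ce1_nt.Nil.Dc
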