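import Pool.Agent.P.MP_a14ce1_nt.Nil.Dec.St
import Pool.Agent.P.MP_a14ce1_nt.Nil.SparseK
import Pool.Agent.P.MP_a14ce1_nt.Nil.Avg

/-!
The scalar lemma in the ultrapower.
-/

open Filter Finset

noncomputable section

namespace Pool.Agent.P.MP_a14ce1_nt.Nil.Dc

theorem scal_log (C : ℕ) {q z : ℝ} (hq : 0 ≤ q)
    (h : (2 * (C + 1) * q + 2) ^ (2 * (C + 1)) ≤ z) : (2 + q * Real.log z) ^ C ≤ z := by
  have hC : (0 : ℝ) < 2 * (C + 1) := by positivity
  have h0 : (2 : ℝ) ≤ 2 * (C + 1) * q + 2 := by nlinarith [mul_nonneg hC.le hq]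
  have h1 : (1 : ℝ) ≤ z := (one_le_pow₀ (by linarith)).trans h
  have hz : 0 ≤ z := by linarith
  set y := z ^ ((2 * (C + 1) : ℕ) : ℝ)⁻¹ with hy
  have y0 : 0 ≤ y := Real.rpow_nonneg hz _
  have e : y ^ (2 * (C + 1)) = z := Real.rpow_inv_natCast_pow hz (by omega)
  have y1 : 2 * (C + 1) * q + 2 ≤ y :=
    le_of_pow_le_pow_left₀ (n := 2 * (C + 1)) (by omega) y0 (e ▸ h)
  have l1 : Real.log z ≤ 2 * (C + 1) * y := by
    have := Real.log_le_rpow_div hz (ε := ((2 * (C + 1) : ℕ) : ℝ)⁻¹) (by positivity)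
    rw [div_inv_eq_mul, ← hy] at this
    push_cast at this
    linarith
  have l0 := Real.log_nonneg h1
  have l2 : 2 + q * Real.log z ≤ y ^ 2 := by
    have := mul_le_mul_of_nonneg_left l1 hq
    have := mul_le_mul_of_nonneg_left y1 y0
    nlinarith
  calc (2 + q * Real.log z) ^ C ≤ (y ^ 2) ^ C := pow_le_pow_left₀ (by positivity) l2 C
    _ ≤ y ^ (2 * (C + 1)) := by
      rw [← pow_mul]; exact pow_le_pow_right₀ (by linarith) (by omega)
    _ = z := e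

theorem scal_logNs (C : ℕ) {q : HR} (z : ℕ → ℕ) (hq : 0 ≤ q)
    (h : (2 * (C + 1) * q + 2) ^ (2 * (C + 1)) ≤ nr (st z)) :
    (2 + q * (st fun n => Real.log (z n) : HR)) ^ C ≤ nr (st z) := by
  induction q using st_ind with | _ q
  rw [nr_st] at h ⊢
  have h1 := (st_le (x := fun _ => (0 : ℝ)) (y := q)).1 hq
  have h2 := (st_le (x := fun n => (2 * (C + 1) * q n + 2) ^ (2 * (C + 1)))
    (y := fun n => (z n : ℝ))).1 h
  exact (st_le (x := fun n => (2 + q n * Real.log (z n)) ^ C) (y := fun n => (z n : ℝ))).2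
    ((h1.and h2).mono fun n hn => scal_log C hn.1 hn.2)

theorem scal_sparse (s : ℕ) (hs : 0 < s) : ∃ C : ℕ,
    ∀ (Q A N B ε α : HR) (z : ℕ → ℕ) (m0 : HZ) (S T : Ns (Finset ℤ)),
      2 ≤ Q → 2 ≤ A → A ^ C ≤ nr (st z) → nr (st z) ^ 10 ≤ N → N ≤ B → |ci m0| ≤ B →
      ε * A ^ C * (B / N) ^ s ≤ 1 → (∀ m : HZ, Mem m S → |ci m - ci m0| ≤ N) → N ≤ A * cd S →
      N ≤ Q * ((st fun n => Real.log (z n) : HR) * cd S) → Mem m0 T →
      (∀ m : HZ, Mem m S → Mem m T) →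
      (∀ᶠ n in UU, ∀ m ∈ rep T n, ∀ p : ℕ, p.Prime → p ≤ z n → ¬(p : ℤ) ∣ m) →
      (∀ m : HZ, Mem m S → ∃ k : HZ, |α * (ci m ^ s - ci m0 ^ s) - ci k| ≤ ε) →
      ∃ t a : HZ, 0 < t ∧ ci t ≤ Q ^ C ∧ |ci t * α - ci a| * N ^ s ≤ A ^ C * ε := by
  obtain ⟨C, hC⟩ := sparseK s hs
  refine ⟨C, fun Q A N B ε α z m0 S T h1 h2 h3 h4 h5 h6 h7 h8 h9 h10 h11 h12 h13 h14 => ?_⟩
  induction Q using st_ind with | _ Q
  induction A using st_ind with | _ A
  induction N using st_ind with | _ N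
  induction B using st_ind with | _ B
  induction ε using st_ind with | _ ε
  induction α using st_ind with | _ α
  induction m0 using st_ind with | _ m0
  induction S using st_ind with | _ S
  induction T using st_ind with | _ T
  rw [nr_st] at h3 h4
  have k1 := (st_le (x := fun _ => (2 : ℝ)) (y := Q)).1 h1
  have k2 := (st_le (x := fun _ => (2 : ℝ)) (y := A)).1 h2
  have k3 := (st_le (x := fun n => A n ^ C) (y := fun n => (z n : ℝ))).1 h3
  have k4 := (st_le (x := fun n => (z n : ℝ) ^ 10) (y := N)).1 h4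
  have k5 := st_le.1 h5
  have k6 := (st_le (x := fun n => |(m0 n : ℝ)|) (y := B)).1 (by rw [← st_abs]; exact h6)
  have k7 := (st_le (x := fun n => ε n * A n ^ C * (B n / N n) ^ s) (y := fun _ => (1 : ℝ))).1 h7
  have k8 : ∀ᶠ n in UU, ∀ m ∈ S n, |(m : ℝ) - m0 n| ≤ N n := ev_ball fun x hx =>
    (st_le (x := fun n => |(x n : ℝ) - m0 n|) (y := N)).1 (by
      rw [← st_abs]; exact h8 (st x) (mem_st.2 hx))
  have k9 := (st_le (x := N) (y := fun n => A n * (S n).card)).1 h9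
  have k10 := (st_le (x := N) (y := fun n => Q n * (Real.log (z n) * (S n).card))).1 h10
  have k11 := mem_st.1 h11
  have k12 := subset_st h12
  have k14 : ∀ᶠ n in UU, ∀ m ∈ S n, ∃ k : ℤ,
      |α n * ((m : ℝ) ^ s - (m0 n : ℝ) ^ s) - k| ≤ ε n := ev_ball fun x hx => by
    obtain ⟨k, hk⟩ := h14 (st x) (mem_st.2 hx)
    induction k using st_ind with | _ k
    exact ((st_le (x := fun n => |α n * ((x n : ℝ) ^ s - (m0 n : ℝ) ^ s) - k n|) (y := ε)).1 (by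
      rw [← st_abs]; exact hk)).mono fun n hn => ⟨_, hn⟩
  have key : ∀ᶠ n in UU, ∃ u : ℤ × ℤ, 0 < u.1 ∧ (u.1 : ℝ) ≤ Q n ^ C ∧
      |u.1 * α n - u.2| * N n ^ s ≤ A n ^ C * ε n := by
    filter_upwards [k1, k2, k3, k4, k5, k6, k7, k8, k9, k10, k11, k12, h13, k14,
      rep_st (A := Ns (Finset ℤ)) T] with n k1 k2 k3 k4 k5 k6 k7 k8 k9 k10 k11 k12 k13 k14 e
    rw [e] at k13
    obtain ⟨t, t0, t1, a, ha⟩ := hC _ _ _ _ _ _ _ _ _ k1 k2 k3 k4 k5 k6 k7 k8 k9 k10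
      (k13 _ k11) (fun m hm => k13 _ (k12 hm)) k14
    exact ⟨(t, a), Int.natCast_pos.2 t0, by simpa using t1, by simpa using ha⟩
  obtain ⟨u, hu⟩ := ev_exists.1 key
  refine ⟨st fun n => (u n).1, st fun n => (u n).2,
    (st_lt (x := fun _ => (0 : ℤ))).2 (hu.mono fun n h => h.1),
    (st_le (x := fun n => ((u n).1 : ℝ)) (y := fun n => Q n ^ C)).2 (hu.mono fun n h => h.2.1), ?_⟩
  have := (st_le (x := fun n => |(u n).1 * α n - (u n).2| * N n ^ s)
    (y := fun n => A n ^ C * ε n)).2 (hu.mono fun n h => h.2.2)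
  have e := st_abs fun n => (u n).1 * α n - (u n).2
  change |(st fun n => (u n).1 * α n - (u n).2 : HR)| * st N ^ s ≤ _
  rw [e]
  exact this

theorem scal : S_Scal := by
  intro Q Z _ _ P x L M N T i α γ hW hB hi hD
  have z1 : 1 ≤ nr (st P.z) := by simpa using P.hz 0
  have N1 : 1 ≤ nr N := (one_le_pow₀ z1).trans hB.zN
  have N0 : 0 < nr N := one_pos.trans_le N1
  have M0 : 0 < nr M := N0.trans_le hB.NM
  have L0 := hW.pos
  set R := nr L / nr M with hR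
  have R0 : 0 < R := div_pos L0 M0
  have Ri : 0 < R ^ i := pow_pos R0 i
  have RZ : ∀ D : ℕ, Z ^ D ≤ R := fun D => by
    rw [hR, le_div_iff₀ M0, mul_comm]
    exact (mul_le_mul_of_nonneg_right hB.M2 (Q_pow_pos D).le).trans (hW.hL D)
  have R1 : 1 ≤ R := by simpa using RZ 0
  obtain ⟨u, hu, H, hH, hb⟩ := pigeonZ (Q := Q) (T := T) (J := Unit) (p := fun _ : HZ => True)
    (q := fun m u => ci (u ()) ≠ 0 ∧
      ∃ k : HZ, (ci (u ()) * (ci m ^ i * α + γ) - ci k) * R ^ i ∈ OO Q)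
    ((IntP.ne (by fun_prop) (by fun_prop)).sig.and (Sig.ex (Sig.memOO (by fun_prop))))
    (hD.mono fun m _ ⟨o, ho, r, ⟨b, b1, b2, b3, b4⟩, e⟩ => by
      obtain ⟨b, rfl⟩ := mem_ZZ.1 b1
      obtain ⟨k, hk⟩ := mem_ZZ.1 b4
      refine ⟨trivial, fun _ => b, fun _ => b2, b3, k, ?_⟩
      rw [e, hk, show (ci b * (o / R ^ i + r) - ci b * r) * R ^ i = ci b * o by
        field_simp; ring]
      exact mul_mem b2 ho)
  set b := ci (u ()) with hbd
  obtain ⟨C1, hC1⟩ := sat_mono (H := fun m : HZ => Mem m H) (IntP.mem IntF.id (IntF.const H))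
    (P := fun C m => ∃ k : HZ, |(b * (ci m ^ i * α + γ) - ci k) * R ^ i| ≤ Q ^ C)
    (fun C => IntP.ex (IntP.le (by fun_prop) (by fun_prop)))
    (fun C D h m ⟨k, hk⟩ => ⟨k, hk.trans (Q_pow_mono h)⟩)
    (fun m hm => let ⟨_, _, _, k, C, hk⟩ := hH m hm; ⟨C, k, hk⟩)
  obtain ⟨H0, T0⟩ := div_ne_zero_iff.1 hb.ne_zero
  obtain ⟨m0, hm0⟩ := exists_mem (A := HZ) H0
  have b0 : b ≠ 0 := (hH m0 hm0).2.2.1
  obtain ⟨C2, hC2⟩ := hB.big
  obtain ⟨C3, hC3⟩ := hb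
  set lz : HR := st fun n => Real.log (P.z n) with hlz
  have lz0 : 0 ≤ lz := le_of_forall fun n => Real.log_natCast_nonneg _
  set q := Q ^ (C2 + C3 + 1) with hq
  have q2 : 2 ≤ q := (Fact.out : 2 ≤ Q).trans
    ((pow_one Q).symm.le.trans (Q_pow_mono (by omega)))
  have hN : nr N ≤ q * (lz * cd H) := by
    rw [abs_of_nonneg (cd_div_nonneg _ _), div_mul_eq_mul_div, one_le_div (cd_pos T0)] at hC3
    have a1 := mul_le_mul_of_nonneg_left (mul_le_mul_of_nonneg_left hC3 lz0)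
      (Q_pow_pos (Q := Q) C2).le
    have a2 := mul_le_mul_of_nonneg_right (Q_pow_mono (Q := Q) (Nat.le_succ (C2 + C3)))
      (mul_nonneg lz0 (cd_nonneg H))
    refine hC2.trans (a1.trans (le_trans (le_of_eq ?_) a2))
    rw [pow_add]; ring
  obtain ⟨C, hC⟩ := scal_sparse i hi
  have qO : q ∈ OO Q := pow_mem Q_mem _
  have A2 : 2 ≤ 2 + q * lz := le_add_of_nonneg_right (mul_nonneg (by linarith) lz0)
  have hA : (2 + q * lz) ^ C ≤ nr (st P.z) := by
    refine scal_logNs C P.z (by linarith) ?_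
    have : (2 * ((C : HR) + 1) * q + 2) ^ (2 * (C + 1)) ∈ OO Q :=
      pow_mem (add_mem (mul_mem (mul_mem (ofNat_mem _ 2) (add_mem (natCast_mem _ C) (one_mem _)))
        qO) (ofNat_mem _ 2)) _
    obtain ⟨D, hD⟩ := this
    exact (le_abs_self _).trans (hD.trans (P.hz D))
  have A0 : 0 ≤ (2 + q * lz) ^ C := pow_nonneg (by linarith) C
  have AO : (2 + q * lz) ^ C ∈ OO Z :=
    OO_of_abs_le Q_mem (by rw [abs_of_nonneg A0]; exact hA.trans P.zZ)
  have QO : 2 * Q ^ C1 ∈ OO Z := mul_mem (ofNat_mem _ 2) (P.OO_le (pow_mem Q_mem _))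
  obtain ⟨t, a, t0, t1, ha⟩ := hC q (2 + q * lz) (nr N) (2 * nr M) (2 * Q ^ C1 / R ^ i) (b * α)
    P.z m0 H T q2 A2 hA hB.zN (by linarith [hB.NM])
    (by
      obtain ⟨a1, a2⟩ := hB.mem m0 (hH m0 hm0).1
      rw [abs_of_nonneg (ci_nonneg.2 a1)]
      have := ci_le.2 a2
      rwa [map_mul, map_ofNat] at this)
    (by
      obtain ⟨D, hD⟩ := mul_mem (mul_mem QO AO) (pow_mem (mul_mem (ofNat_mem _ 2) hB.MN) i)
      rw [div_mul_eq_mul_div, div_mul_eq_mul_div, div_le_one Ri, mul_div_assoc]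
      exact (le_abs_self _).trans (hD.trans ((RZ D).trans (le_self_pow₀ R1 (by omega)))))
    (fun m hm => by
      have := ci_le.2 (hB.near m m0 (hH m hm).1 (hH m0 hm0).1)
      rwa [ci_abs, map_sub] at this)
    (hN.trans (by
      rw [← mul_assoc]
      exact mul_le_mul_of_nonneg_right (by linarith) (cd_nonneg H)))
    hN (hH m0 hm0).1 (fun m hm => (hH m hm).1) hB.rough
    (fun m hm => by
      obtain ⟨k, hk⟩ := hC1 m hm
      obtain ⟨k0, hk0⟩ := hC1 m0 hm0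
      refine ⟨k - k0, ?_⟩
      rw [le_div_iff₀ Ri, ← abs_of_pos Ri, ← abs_mul, map_sub,
        show (b * α * (ci m ^ i - ci m0 ^ i) - (ci k - ci k0)) * R ^ i =
          (b * (ci m ^ i * α + γ) - ci k) * R ^ i - (b * (ci m0 ^ i * α + γ) - ci k0) * R ^ i by
            ring]
      exact (abs_sub _ _).trans (by linarith))
  have tp := ci_pos.2 t0
  have d0 : ci t * b ≠ 0 := mul_ne_zero tp.ne' b0
  have dZ : ci t * b ∈ ZZ := mul_mem (ci_mem _) (ci_mem _)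
  have dO : ci t * b ∈ OO Q :=
    mul_mem (OO_of_abs_le (pow_mem qO C) (by rwa [abs_of_pos tp])) (hu ())
  have Li : 0 < nr L ^ i := pow_pos L0 i
  have Ni : 0 < nr N ^ i := pow_pos N0 i
  refine ⟨(ci t * (b * α) - ci a) / (ci t * b) * nr L ^ i, ?_, ci a / (ci t * b),
    ⟨_, dZ, dO, d0, by rw [mul_div_cancel₀ _ d0]; exact ci_mem a⟩, by field_simp; ring⟩
  refine OO_of_abs_le (mul_mem (mul_mem AO QO) (pow_mem hB.MN i)) ?_
  rw [abs_mul, abs_of_pos Li, abs_div]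
  have a1 : |ci t * (b * α) - ci a| / |ci t * b| ≤ |ci t * (b * α) - ci a| :=
    div_le_self (abs_nonneg _) (ZZ_one_le dZ d0)
  refine (mul_le_mul_of_nonneg_right a1 Li.le).trans ?_
  rw [← le_div_iff₀ Ni] at ha
  refine (mul_le_mul_of_nonneg_right ha Li.le).trans (le_of_eq ?_)
  rw [hR, div_pow, div_pow]
  field_simp

end Pool.Agent.P.MP_a14ce1_nt.Nil.Dc
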