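import Pool.Agent.P.MP_a14ce1_nt.Nil.DecD
import Pool.Agent.P.MP_a14ce1_nt.Nil.Win
import Pool.Agent.P.MP_a14ce1_nt.Nil.Cell
import Pool.Agent.P.MP_a14ce1_nt.Nil.NiceL
import Pool.Agent.P.MP_a14ce1_nt.Nil.StdD

/-!
The decomposition axiom for nilsequences: definitions and the statements of the steps.
-/

open Filter Finset

set_option linter.unusedSectionVars false

noncomputable section

namespace Pool.Agent.P.MP_a14ce1_nt.Nil.Dc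

/-! ### Finitary steps -/

/-- the number of pairs in a window -/
def S_Tot : Prop := ∃ K0 : ℝ, 0 < K0 ∧ ∀ z M1 M2 K x L : ℕ, 2 ≤ z → z ^ 10 ≤ M1 → M2 ≤ z ^ K →
  1 ≤ K → M2 ≤ L → ((pairs (roughs z M1 M2) x L).card : ℝ) ≤ K0 * K * L

/-- gluing along residue classes -/
def S_Cls : Prop := ∀ (W : ℕ) (MM : Finset ℕ) (x L q : ℕ) (φ : ℤ → ℂ) (nB c η : ℝ),
  (∀ m ∈ MM, 0 < m) → 0 < q → q ∣ W → 0 ≤ η →
  (∀ a : ℤ, ∃ φ' : ℤ → ℂ, Dec W MM x L φ' nB c ∧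
    ∀ n : ℤ, (x : ℤ) ≤ n → n < (x : ℤ) + L → (q : ℤ) ∣ n - a → ‖φ n - φ' n‖ ≤ η) →
  Dec W MM x L φ (q * nB) ((q : ℝ) ^ 2 * c + η * (pairs MM x L).card)

/-- gluing along shorter windows -/
def S_Win : Prop := ∀ (W : ℕ) (MM : Finset ℕ) (x L L' : ℕ) (φ : ℤ → ℂ) (nB c t : ℝ),
  (∀ m ∈ MM, 0 < m) → 0 < L' → (∀ n, ‖φ n‖ ≤ 1) → 0 ≤ nB → 0 ≤ c →
  (∀ x' : ℕ, x ≤ x' → x' + L' ≤ x + L → Dec W MM x' L' φ nB c) →
  (∀ x' : ℕ, ((pairs MM x' L').card : ℝ) ≤ t) →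
  Dec W MM x L φ (((L : ℝ) / L' + 1) * (nB + 1)) ((L : ℝ) / L' * c + t)

/-- localisation in m and Cauchy-Schwarz in u -/
def S_CS : Prop := ∃ C0 : ℝ, 0 < C0 ∧ ∀ (z M1 M2 K Z x L : ℕ) (δ : ℝ) (φ : ℤ → ℂ), 2 ≤ z →
  4 * (Z + 1) * z ^ 10 ≤ M1 → M2 ≤ z ^ K → 1 ≤ K → M2 ≤ L → x ≤ Z * L → 0 < δ →
  (∀ n, ‖φ n‖ ≤ 1) → ¬TII (roughs z M1 M2) x L φ (δ * L) →
  ∃ (M N : ℕ) (T : Finset ℤ) (E : Finset (ℤ × ℤ)), M ≤ M2 ∧ z ^ 10 ≤ N ∧ N ≤ M ∧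
    M ≤ 2 * (Z + 1) * N ∧ (∀ m ∈ T, 0 ≤ m ∧ m ≤ 2 * (M : ℤ)) ∧ (∀ m ∈ T, ∀ m' ∈ T, |m - m'| ≤ N) ∧
    (∀ m ∈ T, ∀ p : ℕ, p.Prime → p ≤ z → ¬(p : ℤ) ∣ m) ∧
    δ * N ≤ C0 * K * (Real.log z * T.card) ∧ E ⊆ T ×ˢ T ∧
    δ ^ 2 * (T.card : ℝ) ^ 2 ≤ C0 * K ^ 2 * E.card ∧
    ∀ e ∈ E, ∃ s U : ℤ, 0 < U ∧ U * M ≤ 2 * L ∧ δ ^ 2 * L ≤ C0 * K ^ 2 * M *
      ‖∑ t ∈ Ico (0 : ℤ) U, φ ((s + t) * e.1) * (starRingEnd ℂ) (φ ((s + t) * e.2))‖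

/-! ### Germs -/

abbrev HN : Type := Ns ℕ

/-- natural numbers as integers and as real numbers -/
def nz : HN →+* HZ := liftHom (Nat.castRingHom ℤ)
def nr (a : HN) : HR := ci (nz a)

/-- The parameters: errors are powers of `1 / Q`, sizes are powers of `Z`. -/
structure Par (Q Z : HR) [Fact (2 ≤ Q)] [Fact (2 ≤ Z)] where
  z : ℕ → ℕ
  M1 : ℕ → ℕ
  M2 : ℕ → ℕ
  K : ℕ → ℕ
  W : ℕ → ℕ
  K1 : ∀ n, 1 ≤ K n
  hK : nr (st K) ∈ OO Q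
  hz : ∀ C : ℕ, Q ^ C ≤ nr (st z)
  zZ : nr (st z) ≤ Z
  hM1 : ∀ C : ℕ, Z ^ C ≤ nr (st M1)
  one : 1 ≤ nr (st M2)
  hM2 : ∀ᶠ n in UU, M2 n ≤ z n ^ K n
  hW : ∀ q : HZ, 0 < q → ci q ∈ OO Q → q ∣ nz (st W)

section defs

variable {Q Z : HR} [Fact (2 ≤ Q)] [Fact (2 ≤ Z)] (P : Par Q Z)

def Par.MM (n : ℕ) : Finset ℕ := roughs (P.z n) (P.M1 n) (P.M2 n)

/-- admissible windows -/
structure Par.Win (x L : HN) : Prop where
  hx : nr x / nr L ∈ OO Z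
  hL : ∀ C : ℕ, nr (st P.M2) * Z ^ C ≤ nr L

def Par.TN (x L : HN) (φ : Ns (ℤ → ℂ)) (c : HR) : Prop :=
  ∀ᶠ n in UU, TII (P.MM n) (rep x n) (rep L n) (rep φ n) (rep c n)
def Par.DN (x L : HN) (φ : Ns (ℤ → ℂ)) (nB c : HR) : Prop :=
  ∀ᶠ n in UU, Dec (P.W n) (P.MM n) (rep x n) (rep L n) (rep φ n) (rep nB n) (rep c n)
/-- tiny type II forms -/
def Par.TG (x L : HN) (φ : Ns (ℤ → ℂ)) : Prop :=
  ∀ δ : HR, Big Q δ → 0 < δ → P.TN x L φ (δ * nr L)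
/-- decomposition with tiny type II forms -/
def Par.DG (x L : HN) (φ : Ns (ℤ → ℂ)) : Prop :=
  ∀ δ : HR, Big Q δ → 0 < δ → ∃ C : ℕ, P.DN x L φ (Z ^ C) (δ * nr L)

/-- the set of pairs, the weights and the points of a type II form -/
def Par.PR (x L : HN) : Ns (Finset (ℕ × ℕ)) := st fun n => pairs (P.MM n) (rep x n) (rep L n)
def wt (α β : Ns (ℕ → ℂ)) (p : HN × HN) : HC := ap β p.1 * ap α p.2
def pt (p : HN × HN) : HZ := nz (p.2 * p.1)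
def B1 (α : Ns (ℕ → ℂ)) : Prop := ∀ u : HN, nm (ap α u : HC) ≤ 1
def BZ (φ : Ns (ℤ → ℂ)) : Prop := ∀ n : HZ, nm (ap φ n : HC) ≤ 1

/-- a short interval of rough numbers -/
structure Par.Blk (M N : HN) (T : Ns (Finset ℤ)) : Prop where
  M2 : nr M ≤ nr (st P.M2)
  zN : nr (st P.z) ^ 10 ≤ nr N
  NM : nr N ≤ nr M
  MN : nr M / nr N ∈ OO Z
  mem : ∀ m : HZ, Mem m T → 0 ≤ m ∧ m ≤ 2 * nz M
  near : ∀ m m' : HZ, Mem m T → Mem m' T → |m - m'| ≤ nz N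
  rough : ∀ᶠ n in UU, ∀ m ∈ rep T n, ∀ p : ℕ, p.Prime → p ≤ P.z n → ¬(p : ℤ) ∣ m
  big : ∃ C : ℕ, nr N ≤ Q ^ C * ((st fun n => Real.log (P.z n) : HR) * cd T)

variable (Q) in
/-- small plus rational in degree `i` -/
def SR (O : Subring HR) (R : HR) (i : ℕ) (t : HR) : Prop :=
  ∃ o ∈ O, ∃ r ∈ RT Q, t = o / R ^ i + r

include P in
theorem Par.QZ : Q ≤ Z := by simpa using (P.hz 1).trans P.zZ

include P in
theorem Par.OO_le {t : HR} (h : t ∈ OO Q) : t ∈ OO Z := by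
  obtain ⟨C, hC⟩ := h
  exact ⟨C, hC.trans (pow_le_pow_left₀ Q_pos.le P.QZ C)⟩

/-- coefficients that are small up to powers of `Z` -/
def Par.SZ (L : HR) : Sc (KK Q) Unit := scw (OO Z) (fun _ h => P.OO_le (KK_le_OO _ h)) fun _ => L

end defs

/-- the coefficient of degree `i` -/
abbrev cf {ι : Type} [Fintype ι] [DecidableEq ι] {lv : ι → ℕ} (i : ℕ) (y : PS lv Unit HR) :
    Matrix ι ι HR := co (Finsupp.single () i) (lg y)

/-! ### Steps in the ultrapower -/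

def S_GCls : Prop := ∀ (Q Z : HR) [Fact (2 ≤ Q)] [Fact (2 ≤ Z)] (P : Par Q Z) (x L : HN)
  (φ : Ns (ℤ → ℂ)) (q : HZ), P.Win x L → 0 < q → ci q ∈ OO Q →
  (∀ a : HZ, ∃ φ' : Ns (ℤ → ℂ), P.DG x L φ' ∧ ∀ n : HZ, nz x ≤ n → n < nz x + nz L → q ∣ n - a →
    TinyC Q (ap φ n - ap φ' n)) → P.DG x L φ

def S_GWin : Prop := ∀ (Q Z : HR) [Fact (2 ≤ Q)] [Fact (2 ≤ Z)] (P : Par Q Z) (x L L' : HN)
  (φ : Ns (ℤ → ℂ)), P.Win x L → 0 < L' → nr L / nr L' ∈ OO Z → Tiny Q (nr L' / nr L) → BZ φ →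
  (∀ x' : HN, x ≤ x' → x' + L' ≤ x + L → P.DG x' L' φ) → P.DG x L φ

/-- from tests to the decomposition with a constant major part -/
def S_T1 : Prop := ∀ (Q Z : HR) [Fact (2 ≤ Q)] [Fact (2 ≤ Z)] (P : Par Q Z) (x L : HN)
  (φ : Ns (ℤ → ℂ)) (c : HC), P.Win x L → BZ φ → nm c ≤ 1 →
  (Big Q (cd (P.PR x L) / nr L) → ∀ α β, B1 α → B1 β →
    TinyC Q (Ex (P.PR x L) fun p : HN × HN => wt α β p * (ap φ (pt p) - c))) → P.DG x L φ

/-- from tiny type II forms to tests -/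
def S_T2 : Prop := ∀ (Q Z : HR) [Fact (2 ≤ Q)] [Fact (2 ≤ Z)] (P : Par Q Z) (x L : HN)
  (φ : Ns (ℤ → ℂ)), P.Win x L → Big Q (cd (P.PR x L) / nr L) → P.TG x L φ →
  ∀ α β, B1 α → B1 β → TinyC Q (Ex (P.PR x L) fun p : HN × HN => wt α β p * ap φ (pt p))

def S_Loc : Prop := ∀ (Q Z : HR) [Fact (2 ≤ Q)] [Fact (2 ≤ Z)] (P : Par Q Z) (x L : HN)
  (φ : Ns (ℤ → ℂ)), P.Win x L → BZ φ → ¬P.TG x L φ →
  ∃ (M N : HN) (T : Ns (Finset ℤ)), P.Blk M N T ∧ Dense Q (fprod T T) fun p : HZ × HZ =>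
    ∃ s V : HZ, 0 < V ∧ Big Q (ci V / (nr L / nr M)) ∧ ci V / (nr L / nr M) ∈ OO Q ∧
      BigC Q (Ex (box fun _ : Unit => V) fun t : Unit → HZ =>
        ap φ ((s + t ()) * p.1) * cj (ap φ ((s + t ()) * p.2)))

/-- the scalar lemma -/
def S_Scal : Prop := ∀ (Q Z : HR) [Fact (2 ≤ Q)] [Fact (2 ≤ Z)] (P : Par Q Z) (x L M N : HN)
  (T : Ns (Finset ℤ)) (i : ℕ) (α γ : HR), P.Win x L → P.Blk M N T → 1 ≤ i →
  Dense Q T (fun m : HZ => SR Q (OO Q) (nr L / nr M) i (ci m ^ i * α + γ)) →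
  SR Q (OO Z) (nr L) i α

/-- the equidistribution theorem in one variable -/
def S_Leib : Prop := ∀ (Q : HR) [Fact (2 ≤ Q)] (ι : Type) [Fintype ι] [DecidableEq ι] (lv : ι → ℕ)
  (g : Fam (KK Q) lv ℕ) (D : ℕ) (U : Submodule HR (Matrix ι ι HR))
  (ξ : Matrix ι ι HR →ₗ[HR] HR) (q : HR) (F : UT lv HR → HC) (N : Unit → HZ) (x : PS lv Unit HR),
  g.Fil D → Cen g U ξ → (∃ X ∈ U, ξ X ≠ 0) → Nice Q q g.GG F → Eqv Q g.GG U ξ F → Long Q N →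
  x ∈ (g.fine Unit).PG → Irr (Sm Q (zv N)) (Rt Q 1) g (U ⊓ LinearMap.ker ξ) x →
  TinyC Q (Ex (box N) fun n : Unit → HZ => F (ev (zv n) x))

/-- the equidistribution theorem for two dilates of one sequence -/
def S_Two : Prop := ∀ (Q : HR) [Fact (2 ≤ Q)] (ι : Type) [Fintype ι] [DecidableEq ι] (lv : ι → ℕ)
  (g : Fam (KK Q) lv ℕ) (D : ℕ) (U : Submodule HR (Matrix ι ι HR))
  (ξ : Matrix ι ι HR →ₗ[HR] HR) (q : HR) (F : UT lv HR → HC) (y : PS lv Unit HR) (R : HR)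
  (s V m m' : HZ), g.Fil D → Cen g U ξ → (∃ X ∈ U, ξ X ≠ 0) → Nice Q q g.GG F →
  Eqv Q g.GG U ξ F → y ∈ (g.fine Unit).PG → 0 < R → Tiny Q R⁻¹ → 0 < V → Big Q (ci V / R) →
  ci V / R ∈ OO Q →
  BigC Q (Ex (box fun _ : Unit => V) fun t : Unit → HZ =>
    F (e1 ((s + t ()) * m) y) * cj (F (e1 ((s + t ()) * m') y))) →
  ∃ i κ, Adm (g.prod g) ⊥ i (fn κ) ∧
    SR Q (OO Q) R i (ci m ^ i * fn κ (dg (cf i y) 0) + ci m' ^ i * fn κ (dg 0 (cf i y)))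

/-- nonzero frequencies have tiny type II forms -/
def S_Core : Prop := ∀ (Q Z : HR) [Fact (2 ≤ Q)] [Fact (2 ≤ Z)] (P : Par Q Z) (x L : HN)
  (ι : Type) [Fintype ι] [DecidableEq ι] (lv : ι → ℕ) (g : Fam (KK Q) lv ℕ) (D : ℕ)
  (U : Submodule HR (Matrix ι ι HR)) (ξ : Matrix ι ι HR →ₗ[HR] HR) (q : HR) (F : UT lv HR → HC)
  (y : PS lv Unit HR) (φ : Ns (ℤ → ℂ)), P.Win x L → g.Fil D → Cen g U ξ → (∃ X ∈ U, ξ X ≠ 0) →
  Nice Q q g.GG F → Eqv Q g.GG U ξ F → y ∈ (g.fine Unit).PG →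
  Irr (P.SZ (nr L)) (Rt Q 1) g ⊥ y → (∀ n : HZ, ap φ n = F (e1 n y)) → P.TG x L φ

/-- two tests that kill all nonzero frequencies and have the same mass agree -/
def S_Equi : Prop := ∀ (Q : HR) [Fact (2 ≤ Q)] (ι : Type) [Fintype ι] [DecidableEq ι] (lv : ι → ℕ)
  (g : Fam (KK Q) lv ℕ) (q : HR) (A S B S' : Type) [NS A S] [NS B S'] (T : Ns (Finset S))
  (T' : Ns (Finset S')) (w : A → HC) (x : A → UT lv HR) (w' : B → HC) (x' : B → UT lv HR),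
  IntF w → IntF x → IntF w' → IntF x' → (∀ a, Mem a T → nm (w a) ≤ 1 ∧ x a ∈ g.GG) →
  (∀ b, Mem b T' → nm (w' b) ≤ 1 ∧ x' b ∈ g.GG) → TinyC Q (Ex T w - Ex T' w') →
  (∀ U ξ F, Cen g U ξ → (∃ X ∈ U, ξ X ≠ 0) → Nice Q q g.GG F → Eqv Q g.GG U ξ F →
    TinyC Q (Ex T fun a => w a * F (x a)) ∧ TinyC Q (Ex T' fun b => w' b * F (x' b))) →
  ∀ F, Nice Q q g.GG F → TinyC Q ((Ex T fun a => w a * F (x a)) - Ex T' fun b => w' b * F (x' b))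

/-- the irrational case -/
def S_Irr : Prop := ∀ (Q Z : HR) [Fact (2 ≤ Q)] [Fact (2 ≤ Z)] (P : Par Q Z) (x L : HN)
  (ι : Type) [Fintype ι] [DecidableEq ι] (lv : ι → ℕ) (g : Fam (KK Q) lv ℕ) (D : ℕ) (q : HR)
  (F : UT lv HR → HC) (y : PS lv Unit HR) (φ : Ns (ℤ → ℂ)), P.Win x L → g.Fil D →
  Nice Q q g.GG F → y ∈ (g.fine Unit).PG → Irr (P.SZ (nr L)) (Rt Q 1) g ⊥ y →
  (∀ n : HZ, ap φ n = F (e1 n y)) → P.DG x L φ

/-- the decomposition in the ultrapower -/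
def S_Main : Prop := ∀ (Q Z : HR) [Fact (2 ≤ Q)] [Fact (2 ≤ Z)] (P : Par Q Z) (x L : HN)
  (ι : Type) [Fintype ι] [DecidableEq ι] (lv : ι → ℕ) (g : Fam (KK Q) lv ℕ) (D : ℕ) (q : HR)
  (F : UT lv HR → HC) (y : PS lv Unit HR) (φ : Ns (ℤ → ℂ)), P.Win x L → g.Fil D →
  Nice Q q g.GG F → y ∈ (g.fine Unit).PG → (∀ n : HZ, ap φ n = F (e1 n y)) → P.DG x L φ

/-- the finitary axiom -/
def S_Dec : Prop := ∀ (ι : Type) [Fintype ι] [DecidableEq ι] (lv : ι → ℕ)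
  (g : Fam (⊥ : Subfield ℝ) lv ℕ) (D q : ℕ) (L : ℝ), g.Fil D → 0 < q →
  DecAx {ψ | ∃ F : UT lv ℝ → ℂ, NiceR q L g.GG F ∧
    ∃ x ∈ (g.fine Unit).PG, ∀ n : ℤ, ψ n = F (ev (fun _ => (n : ℝ)) x)}

/-! ### Basic facts -/

theorem nz_st (a : ℕ → ℕ) : nz (st a) = st fun n => (a n : ℤ) := rfl
theorem nr_st (a : ℕ → ℕ) : nr (st a) = st fun n => (a n : ℝ) :=
  st_congr (A := HR) (Eventually.of_forall fun n => Int.cast_natCast (a n))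
theorem nz_nonneg (a : HN) : 0 ≤ nz a := by
  induction a using st_ind
  exact st_le.2 (Eventually.of_forall fun n => Int.natCast_nonneg _)
theorem nr_nonneg (a : HN) : 0 ≤ nr a := ci_nonneg.2 (nz_nonneg a)
theorem nz_le {a b : HN} : nz a ≤ nz b ↔ a ≤ b := by
  induction a using st_ind
  induction b using st_ind
  simp only [nz_st, st_le, Int.ofNat_le]
theorem nz_lt {a b : HN} : nz a < nz b ↔ a < b := by
  induction a using st_ind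
  induction b using st_ind
  simp only [nz_st, st_lt, Int.ofNat_lt]
theorem nr_le {a b : HN} : nr a ≤ nr b ↔ a ≤ b := ci_le.trans nz_le
theorem nr_lt {a b : HN} : nr a < nr b ↔ a < b := ci_lt.trans nz_lt
theorem nr_add (a b : HN) : nr (a + b) = nr a + nr b := by rw [nr, map_add, map_add]; rfl
theorem nr_mul (a b : HN) : nr (a * b) = nr a * nr b := by rw [nr, map_mul, map_mul]; rfl
theorem nr_zero : nr 0 = 0 := by rw [nr, map_zero, map_zero]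
theorem nr_pos {a : HN} : 0 < nr a ↔ 0 < a := by rw [← nr_lt, nr_zero]
theorem exists_nz {a : HZ} (h : 0 ≤ a) : ∃ b, nz b = a := by
  induction a using st_ind with | _ a
  exact ⟨st fun n => (a n).toNat, st_congr ((st_le.1 h).mono fun n hn => Int.toNat_of_nonneg hn)⟩
@[fun_prop] theorem intF_nz {A S : Type} [NS A S] {f : A → HN} (hf : IntF f) :
    IntF fun a => nz (f a) := IntF.liftHom _ hf
@[fun_prop] theorem intF_nr {A S : Type} [NS A S] {f : A → HN} (hf : IntF f) :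
    IntF fun a => nr (f a) := (intF_nz hf).ci
@[fun_prop] theorem intF_pt {A S : Type} [NS A S] {f : A → HN × HN} (hf : IntF f) :
    IntF fun a => pt (f a) := intF_nz (hf.snd.mul hf.fst)
@[fun_prop] theorem intF_wt {A S : Type} [NS A S] (α β : Ns (ℕ → ℂ)) {f : A → HN × HN}
    (hf : IntF f) : IntF fun a => wt α β (f a) :=
  ((IntF.const β).ap hf.fst).mul ((IntF.const α).ap hf.snd)
@[fun_prop] theorem intF_e1 {A S ι : Type} [NS A S] [Fintype ι] [DecidableEq ι] {lv : ι → ℕ}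
    (y : PS lv Unit HR) {f : A → HZ} (hf : IntF f) : IntF fun a => e1 (f a) y :=
  IntF.ev y (IntF.pi fun _ => hf.ci)

theorem bz_st {φ : ℕ → ℤ → ℂ} : BZ (st φ) ↔ ∀ᶠ n in UU, ∀ t, ‖φ n t‖ ≤ 1 :=
  IntP.los (p := fun t : HZ => nm (ap (st φ) t : HC) ≤ 1) fun x => by rw [ap_st]; exact st_le
theorem b1_st {α : ℕ → ℕ → ℂ} : B1 (st α) ↔ ∀ᶠ n in UU, ∀ t, ‖α n t‖ ≤ 1 :=
  IntP.los (p := fun t : HN => nm (ap (st α) t : HC) ≤ 1) fun x => by rw [ap_st]; exact st_le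

section basic

variable {Q Z : HR} [Fact (2 ≤ Q)] [Fact (2 ≤ Z)] {P : Par Q Z}

theorem Par.pos_MM (P : Par Q Z) : ∀ᶠ n in UU, ∀ m ∈ P.MM n, 0 < m := by
  have h := P.hM1 0
  rw [pow_zero, nr_st] at h
  exact (st_le.1 h).mono fun n hn m hm =>
    lt_of_lt_of_le (by exact_mod_cast hn) (mem_roughs.1 hm).1.1

theorem tn_st {x L : ℕ → ℕ} {φ : ℕ → ℤ → ℂ} {c : ℕ → ℝ} : P.TN (st x) (st L) (st φ) (st c) ↔
    ∀ᶠ n in UU, TII (P.MM n) (x n) (L n) (φ n) (c n) := eventually_congr (by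
  filter_upwards [rep_st (A := HN) x, rep_st (A := HN) L, rep_st (A := Ns (ℤ → ℂ)) φ,
    rep_st (A := HR) c] with n h1 h2 h3 h4
  rw [h1, h2, h3, h4])

theorem dn_st {x L : ℕ → ℕ} {φ : ℕ → ℤ → ℂ} {b c : ℕ → ℝ} :
    P.DN (st x) (st L) (st φ) (st b) (st c) ↔
      ∀ᶠ n in UU, Dec (P.W n) (P.MM n) (x n) (L n) (φ n) (b n) (c n) := eventually_congr (by
  filter_upwards [rep_st (A := HN) x, rep_st (A := HN) L, rep_st (A := Ns (ℤ → ℂ)) φ,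
    rep_st (A := HR) b, rep_st (A := HR) c] with n h1 h2 h3 h4 h5
  rw [h1, h2, h3, h4, h5])

theorem pr_st (x L : ℕ → ℕ) : P.PR (st x) (st L) = st fun n => pairs (P.MM n) (x n) (L n) :=
  st_congr (by
    filter_upwards [rep_st (A := HN) x, rep_st (A := HN) L] with n h1 h2
    rw [h1, h2])

theorem Par.tiny (P : Par Q Z) : Tiny Q Z⁻¹ := Tiny.of_forall fun C => by
  have h0 : (0 : HR) < Z := Q_pos
  rw [abs_of_pos (inv_pos.2 h0)]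
  exact inv_anti₀ (Q_pow_pos C) ((P.hz C).trans P.zZ)

theorem Par.Win.le {x L : HN} (h : P.Win x L) (C : ℕ) : Z ^ C ≤ nr L :=
  (le_mul_of_one_le_left (Q_pow_pos C).le P.one).trans (h.hL C)

theorem Par.Win.pos {x L : HN} (h : P.Win x L) : 0 < nr L := (Q_pow_pos 0).trans_le (h.le 0)

theorem Par.Win.long {x L : HN} (h : P.Win x L) : Long Q fun _ : Unit => nz L := fun _ =>
  ⟨ci_pos.1 h.pos, P.tiny.mono (inv_pos.2 h.pos).le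
    (inv_anti₀ Q_pos ((pow_one Z).symm.le.trans (h.le 1)))⟩

/-- shorter windows -/
theorem Par.Win.sub {x L x' L' : HN} (h : P.Win x L) (h0 : 0 < L') (h1 : nr L / nr L' ∈ OO Z)
    (h2 : x' ≤ x + L) : P.Win x' L' := by
  have p1 := h.pos
  have p2 := nr_pos.2 h0
  refine ⟨OO_of_abs_le (mul_mem (add_mem h.hx (one_mem _)) h1) ?_, fun C => ?_⟩
  · rw [abs_of_nonneg (div_nonneg (nr_nonneg _) p2.le), div_le_iff₀ p2,
      show (nr x / nr L + 1) * (nr L / nr L') * nr L' = nr x + nr L by field_simp, ← nr_add]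
    exact nr_le.2 h2
  · obtain ⟨D, hD⟩ := h1
    rw [abs_of_pos (div_pos p1 p2), div_le_iff₀ p2] at hD
    have := (h.hL (C + D)).trans hD
    rw [pow_add, ← mul_assoc, mul_comm (Z ^ D)] at this
    exact le_of_mul_le_mul_right this (Q_pow_pos D)

theorem unit_single {β : Unit →₀ ℕ} {i : ℕ} (h : β.degree = i) : β = Finsupp.single () i := by
  subst h
  rw [Finsupp.degree_eq_sum]
  ext
  simp

theorem sr_iff {O : Subring HR} (hO : ∀ k ∈ KK Q, k ∈ O) {R : HR} (hR : R ≠ 0) {i : ℕ} {t : HR} :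
    t ∈ (scw O hO fun _ : Unit => R).s (Finsupp.single () i) ⊔
      (Rt Q (1 : Unit → HR)).s (Finsupp.single () i) ↔ SR Q O R i t := by
  have e : ∀ w : Unit → HR, (Finsupp.single () i).prod (fun l k => w l ^ k) = w () ^ i :=
    fun w => Finsupp.prod_single_index (pow_zero _)
  have hp : R ^ i ≠ 0 := pow_ne_zero _ hR
  rw [Submodule.mem_sup]
  constructor
  · rintro ⟨a, ha, b, hb, rfl⟩
    change a * _ ∈ O at ha
    change b * _ ∈ RT Q at hb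
    rw [e] at ha hb
    exact ⟨_, ha, b, by simpa using hb, by rw [mul_div_cancel_right₀ _ hp]⟩
  · rintro ⟨o, ho, r, hr, rfl⟩
    refine ⟨_, ?_, r, ?_, rfl⟩
    · change _ * _ ∈ O
      rwa [e, div_mul_cancel₀ _ hp]
    · change _ * _ ∈ RT Q
      rw [e]; simpa using hr

theorem sig_SR {A S : Type} [NS A S] {R : HR} (hR : R ≠ 0) (i : ℕ) {f : A → HR} (hf : IntF f) :
    Sig fun a => SR Q (OO Q) R i (f a) :=
  (Sig.memSup (Q := Q) (fun _ : Unit => R) 1 (Finsupp.single () i) hf).congr fun _ =>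
    (sr_iff KK_le_OO hR).symm

/-- the form of irrationality that is used -/
theorem irr_iff {ι : Type} [Fintype ι] [DecidableEq ι] {lv : ι → ℕ} {O : Subring HR}
    (hO : ∀ k ∈ KK Q, k ∈ O) {R : HR} (hR : R ≠ 0) {g : Fam (KK Q) lv ℕ} {n} {y : PS lv Unit HR} :
    Irr (scw O hO fun _ : Unit => R) (Rt Q 1) g n y ↔
      ∀ i η, Adm g n i η → ¬SR Q O R i (η (cf i y)) := by
  refine forall₃_congr fun i η _ => ⟨fun ⟨β, h1, h2⟩ h3 => h2 ?_,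
    fun h => ⟨Finsupp.single () i, by simp, ?_⟩⟩
  · rw [unit_single h1]; exact (sr_iff hO hR).2 h3
  · exact fun h3 => h ((sr_iff hO hR).1 h3)

end basic

/-! ### Finitary monotonicity -/

theorem tii_mono {MM x L φ} {c c' : ℝ} (h : TII MM x L φ c) (hc : c ≤ c') : TII MM x L φ c' :=
  fun α β ha hb => (h α β ha hb).trans hc

theorem dec_mono {W MM x L φ} {b b' c c' : ℝ} (h : Dec W MM x L φ b c) (hb : b ≤ b')
    (hc : c ≤ c') : Dec W MM x L φ b' c' :=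
  let ⟨ψ, B, h1, h2, h3, h4⟩ := h
  ⟨ψ, B, h1, h2.trans hb, h3, tii_mono h4 hc⟩

theorem tii_add {MM x L} {φ ψ : ℤ → ℂ} {c d : ℝ} (h : TII MM x L φ c) (k : TII MM x L ψ d) :
    TII MM x L (fun n => φ n + ψ n) (c + d) := fun α β ha hb => by
  simp only [mul_add, sum_add_distrib]
  exact (norm_add_le _ _).trans (add_le_add (h α β ha hb) (k α β ha hb))

theorem tii_bound {MM : Finset ℕ} {x L : ℕ} {φ : ℤ → ℂ} {η : ℝ}
    (h : ∀ n : ℤ, (x : ℤ) ≤ n → n < (x : ℤ) + L → ‖φ n‖ ≤ η) :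
    TII MM x L φ (η * (pairs MM x L).card) := fun α β ha hb => by
  refine (norm_sum_le _ _).trans ?_
  rw [mul_comm, ← nsmul_eq_mul]
  refine sum_le_card_nsmul _ _ _ fun a h1 => ?_
  have h2 := (mem_filter.1 h1).2
  have h3 := h ((a.2 * a.1 : ℕ) : ℤ) (by exact_mod_cast h2.1) (by exact_mod_cast h2.2)
  rw [norm_mul, norm_mul]
  exact (mul_le_of_le_one_left (norm_nonneg _)
    (mul_le_one₀ (hb _) (norm_nonneg _) (ha _))).trans h3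

end Pool.Agent.P.MP_a14ce1_nt.Nil.Dc
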